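import Pool.Agent.Helper50.FT.Local

/-!
# FT: the number of simplices and the vertices near which a decomposition is face to face
-/

namespace Pool.Agent.Helper50.FT

open Set Module

variable {n : ℕ}

/-- The vertices of the decomposition whose `i`-th coordinate is neither `0` nor `1` and near
which the decomposition is face to face. -/
def freeVertices {ι : Type*} (v : ι → Fin (n + 1) → Fin n → ℝ) (i : Fin n) :
    Set (Fin n → ℝ) :=
  {x | (∃ s j, v s j = x) ∧ x i ≠ 0 ∧ x i ≠ 1 ∧ LocalFF v x}

theorem finite_freeVertices {ι : Type*} [Finite ι] (v : ι → Fin (n + 1) → Fin n → ℝ)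
    (i : Fin n) : (freeVertices v i).Finite := by
  refine (finite_range fun p : ι × Fin (n + 1) => v p.1 p.2).subset ?_
  rintro x ⟨⟨s, j, h⟩, -⟩
  exact ⟨(s, j), h⟩

/-- The hat function of a vertex near which the decomposition is face to face is glued. -/
theorem hat_glue {ι : Type*} [Finite ι] {P : Set (Fin n → ℝ)}
    {v : ι → Fin (n + 1) → Fin n → ℝ} (hP : Convex ℝ P) (hPc : IsCompact P)
    (hv : IsDecomp P v) {x : Fin n → ℝ} (hx : LocalFF v x) (hex : ∃ s j, v s j = x) (s t : ι)
    {y : Fin n → ℝ} (hys : y ∈ hull (v s)) (hyt : y ∈ hull (v t)) :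
    hat (v s) (hv.indep s) (fun u => if u = x then 1 else 0) y =
      hat (v t) (hv.indep t) (fun u => if u = x then 1 else 0) y := by
  classical
  obtain ⟨s0, j0, h0⟩ := hex
  have key : ∀ (a b : ι), x ∈ hull (v a) → x ∉ hull (v b) → y ∈ hull (v a) → y ∈ hull (v b) →
      hat (v a) (hv.indep a) (fun u => if u = x then 1 else 0) y = 0 := by
    intro a b ha hb hya hyb
    obtain ⟨j, hj⟩ := vertex_of_mem hv.indep hx h0 ha
    have h1 := coord_eq_zero hP hPc hv hx hj hb hya hyb
    rw [hat_apply, Finset.sum_eq_single j]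
    · rw [h1, mul_zero]
    · intro k _ hk
      have h3 : v a k ≠ x := by
        rw [← hj]
        exact fun h4 => hk ((hv.indep a).injective h4)
      rw [if_neg h3, zero_mul]
    · intro h
      exact absurd (Finset.mem_univ _) h
  have key2 : ∀ (b : ι), x ∉ hull (v b) →
      hat (v b) (hv.indep b) (fun u => if u = x then 1 else 0) y = 0 := by
    intro b hb
    rw [hat_apply]
    refine Finset.sum_eq_zero fun k _ => ?_
    have h3 : v b k ≠ x := by
      rintro rfl
      exact hb (subset_convexHull ℝ _ (mem_range_self k))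
    rw [if_neg h3, zero_mul]
  by_cases hs : x ∈ hull (v s)
  · by_cases ht : x ∈ hull (v t)
    · obtain ⟨A, B, hA, hB⟩ := hx s t hs ht
      exact hat_eq (hv.indep s) (hv.indep t) hA hB _ ⟨hys, hyt⟩
    · rw [key s t hs ht hys hyt, key2 t ht]
  · by_cases ht : x ∈ hull (v t)
    · rw [key t s ht hs hyt hys, key2 s hs]
    · rw [key2 s hs, key2 t ht]

/-- There is a decomposition with `k` simplices less, `k` the number of the vertices with `i`-th
coordinate different from `0` and `1` near which the decomposition is face to face. -/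
theorem free_smaller {ι : Type*} [Finite ι] {v : ι → Fin (n + 1) → Fin n → ℝ}
    (hv : IsDecomp (Icc 0 1) v) (i : Fin n) :
    ∃ (N : ℕ) (w : Fin N → Fin (n + 1) → Fin n → ℝ), IsDecomp (Icc 0 1) w ∧
      N + (freeVertices v i).ncard ≤ Nat.card ι := by
  classical
  set X := freeVertices v i with hX
  haveI : Fintype X := (finite_freeVertices v i).fintype
  let ext : (X → ℝ) → (Fin n → ℝ) → ℝ := fun c x => if hx : x ∈ X then c ⟨x, hx⟩ else 0
  let Φ : (X → ℝ) →ₗ[ℝ] (ι → (Fin n → ℝ) →ᵃ[ℝ] ℝ) :=
    { toFun := fun c s => hat (v s) (hv.indep s) (ext c)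
      map_add' := fun c d => by
        funext s
        refine aff_ext (hv.indep s) fun j => ?_
        show hat (v s) (hv.indep s) (ext (c + d)) (v s j) =
          hat (v s) (hv.indep s) (ext c) (v s j) + hat (v s) (hv.indep s) (ext d) (v s j)
        rw [hat_vertex, hat_vertex, hat_vertex]
        by_cases hx : v s j ∈ X
        · simp [ext, hx]
        · simp [ext, hx]
      map_smul' := fun a c => by
        funext s
        refine aff_ext (hv.indep s) fun j => ?_
        show hat (v s) (hv.indep s) (ext (a • c)) (v s j) =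
          a * hat (v s) (hv.indep s) (ext c) (v s j)
        rw [hat_vertex, hat_vertex]
        by_cases hx : v s j ∈ X
        · simp [ext, hx]
        · simp [ext, hx] }
  have hinj : Function.Injective Φ := by
    intro c d hcd
    funext ⟨x, hx⟩
    have hx2 := hx
    obtain ⟨⟨s, j, hsj⟩, -⟩ := hx2
    have h1 : hat (v s) (hv.indep s) (ext c) (v s j) = hat (v s) (hv.indep s) (ext d) (v s j) :=
      congrArg (fun f : (Fin n → ℝ) →ᵃ[ℝ] ℝ => f (v s j)) (congrFun hcd s)
    rw [hat_vertex, hat_vertex, hsj] at h1
    simp only [ext, dif_pos hx] at h1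
    exact h1
  -- the hat functions are linear combinations of those of the single vertices
  have hsum : ∀ (c : X → ℝ) (s : ι) (y : Fin n → ℝ), hat (v s) (hv.indep s) (ext c) y =
      ∑ x : X, c x * hat (v s) (hv.indep s) (fun u => if u = x.1 then 1 else 0) y := by
    intro c s y
    simp only [hat_apply, Finset.mul_sum]
    rw [Finset.sum_comm]
    refine Finset.sum_congr rfl fun j _ => ?_
    by_cases hx : v s j ∈ X
    · rw [Finset.sum_eq_single (⟨v s j, hx⟩ : X)]
      · simp [ext, hx]
      · intro x _ hne
        have h1 : v s j ≠ x.1 := fun h2 => hne (Subtype.ext h2.symm)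
        rw [if_neg h1, zero_mul, mul_zero]
      · intro h
        exact absurd (Finset.mem_univ _) h
    · rw [Finset.sum_eq_zero]
      · simp [ext, hx]
      · intro x _
        have h1 : v s j ≠ x.1 := fun h2 => hx (h2 ▸ x.2)
        rw [if_neg h1, zero_mul, mul_zero]
  have hglued : ∀ h ∈ LinearMap.range Φ, Glued (Pi.single i 1 : Fin n → ℝ) v
      (fun k : Bool => {x : Fin n → ℝ | x i = if k then 1 else 0}) h := by
    rintro _ ⟨c, rfl⟩
    refine ⟨fun s t => Or.inr fun y hy => ?_, fun s k => Or.inr fun x hx => ?_⟩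
    · show hat (v s) (hv.indep s) (ext c) y = hat (v t) (hv.indep t) (ext c) y
      rw [hsum, hsum]
      refine Finset.sum_congr rfl fun x _ => ?_
      rw [hat_glue (convex_Icc (0 : Fin n → ℝ) 1) isCompact_Icc hv x.2.2.2.2 x.2.1 s t hy.1 hy.2]
    · refine hat_facet hv s (ε := if k then 1 else 0) ?_ ?_ hx.1 hx.2
      · cases k
        · left
          simp
        · right
          simp
      · intro y hy
        have hyX : y ∉ X := by
          rintro ⟨-, h0, h1, -⟩
          cases k
          · exact h0 (by simpa using hy)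
          · exact h1 (by simpa using hy)
        simp [ext, hyX]
  have he : (Pi.single i 1 : Fin n → ℝ) ≠ 0 := by
    intro h0
    have h1 := congrFun h0 i
    simp at h1
  obtain ⟨N, w, hw, hN⟩ := exists_smaller (convex_Icc (0 : Fin n → ℝ) 1) isCompact_Icc hv he
    (ends_cube i) (LinearMap.range Φ) hglued
  refine ⟨N, w, hw, ?_⟩
  have h1 : finrank ℝ (LinearMap.range Φ) = X.ncard := by
    rw [LinearMap.finrank_range_of_inj hinj, finrank_fintype_fun_eq_card,
      ← Nat.card_eq_fintype_card]
    rfl
  rw [h1] at hN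
  exact hN

end Pool.Agent.Helper50.FT
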