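import Pool.Agent.Helper50.FT.Mono

/-!
# FT: decompositions, sets parallel to a direction, the map `x ↦ x + h x • e`
-/

namespace Pool.Agent.Helper50.FT

open Set

variable {n : ℕ}

/-- The simplex with the vertices `w 0, …, w n`. -/
def hull (w : Fin (n + 1) → Fin n → ℝ) : Set (Fin n → ℝ) := convexHull ℝ (range w)

/-- A decomposition of `P` into simplices: `v s i` is the `i`-th vertex of the `s`-th simplex. -/
structure IsDecomp {ι : Type*} (P : Set (Fin n → ℝ)) (v : ι → Fin (n + 1) → Fin n → ℝ) :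
    Prop where
  indep : ∀ s, AffineIndependent ℝ (v s)
  cover : (⋃ s, hull (v s)) = P
  disj : ∀ s t, s ≠ t → Disjoint (interior (hull (v s))) (interior (hull (v t)))

/-- The set `A` is contained in a hyperplane which is parallel to `e`. -/
def Par (e : Fin n → ℝ) (A : Set (Fin n → ℝ)) : Prop :=
  ∃ (ℓ : (Fin n → ℝ) →ₗ[ℝ] ℝ) (c : ℝ), ℓ ≠ 0 ∧ ℓ e = 0 ∧ ∀ x ∈ A, ℓ x = c

theorem exists_generic {κ : Type*} [Finite κ] (ℓ : κ → (Fin n → ℝ) →ₗ[ℝ] ℝ) (c : κ → ℝ)
    (hℓ : ∀ k, ℓ k ≠ 0 ∨ c k ≠ 0) {O : Set (Fin n → ℝ)} (hO : IsOpen O) (hne : O.Nonempty) :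
    ∃ x ∈ O, ∀ k, ℓ k x ≠ c k := by
  have hd : Dense (⋂ k, {x : Fin n → ℝ | ℓ k x ≠ c k}) := by
    refine dense_iInter_of_isOpen (fun k => ?_) fun k => ?_
    · exact isOpen_ne_fun (LinearMap.continuous_of_finiteDimensional (ℓ k)) continuous_const
    · by_cases h : ℓ k = 0
      · have hc : c k ≠ 0 := (hℓ k).resolve_left (not_not.mpr h)
        have h2 : {x : Fin n → ℝ | ℓ k x ≠ c k} = univ := by
          ext x
          simp [h, hc.symm]
        rw [h2]
        exact dense_univ
      · have hs : Function.Surjective (ℓ k) := LinearMap.surjective h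
        have ho : IsOpenMap (ℓ k) := by
          have h3 : IsOpenMap (LinearMap.toContinuousLinearMap (ℓ k)) :=
            ContinuousLinearMap.isOpenMap _ hs
          exact h3
        exact (dense_compl_singleton (c k)).preimage ho
  obtain ⟨x, hx, hx2⟩ := hd.inter_open_nonempty O hO hne
  exact ⟨x, hx, fun k => mem_iInter.mp hx2 k⟩

/-- The map `x ↦ x + h x • e`. -/
noncomputable def phi (h : (Fin n → ℝ) →ᵃ[ℝ] ℝ) (e : Fin n → ℝ) : (Fin n → ℝ) →ᵃ[ℝ] (Fin n → ℝ) :=
  AffineMap.id ℝ (Fin n → ℝ) + (LinearMap.toSpanSingleton ℝ (Fin n → ℝ) e).toAffineMap.comp h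

theorem phi_apply (h : (Fin n → ℝ) →ᵃ[ℝ] ℝ) (e x : Fin n → ℝ) : phi h e x = x + h x • e := by
  simp [phi, LinearMap.toSpanSingleton_apply]

theorem aff_add (h : (Fin n → ℝ) →ᵃ[ℝ] ℝ) (x e : Fin n → ℝ) (r : ℝ) :
    h (x + r • e) = h x + r * h.linear e := by
  have h1 := h.map_vadd x (r • e)
  simp only [vadd_eq_add, map_smul, smul_eq_mul] at h1
  rw [add_comm x, h1, add_comm]

theorem aff_phi (h : (Fin n → ℝ) →ᵃ[ℝ] ℝ) (e x : Fin n → ℝ) :
    h (phi h e x) = h x * (1 + h.linear e) := by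
  rw [phi_apply, aff_add]
  ring

/-- The map `phi` as a homeomorphism. -/
noncomputable def phiHomeo (h : (Fin n → ℝ) →ᵃ[ℝ] ℝ) (e : Fin n → ℝ)
    (hc : 1 + h.linear e ≠ 0) : (Fin n → ℝ) ≃ₜ (Fin n → ℝ) where
  toFun := phi h e
  invFun y := y - (h y / (1 + h.linear e)) • e
  left_inv x := by
    show phi h e x - (h (phi h e x) / (1 + h.linear e)) • e = x
    rw [aff_phi, mul_div_assoc, div_self hc, mul_one, phi_apply, add_sub_cancel_right]
  right_inv y := by
    rw [phi_apply]
    have h1 : y - (h y / (1 + h.linear e)) • e = y + (-(h y / (1 + h.linear e))) • e := by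
      rw [neg_smul, sub_eq_add_neg]
    have h2 : h (y - (h y / (1 + h.linear e)) • e) = h y / (1 + h.linear e) := by
      rw [h1, aff_add]
      field_simp
      ring
    rw [h2, sub_add_cancel]
  continuous_toFun := AffineMap.continuous_of_finiteDimensional _
  continuous_invFun := by
    have := AffineMap.continuous_of_finiteDimensional h
    fun_prop

theorem image_hull (f : (Fin n → ℝ) →ᵃ[ℝ] (Fin n → ℝ)) (w : Fin (n + 1) → Fin n → ℝ) :
    f '' hull w = hull (fun i => f (w i)) := by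
  unfold hull
  rw [AffineMap.image_convexHull, ← range_comp]
  rfl

theorem isCompact_hull (w : Fin (n + 1) → Fin n → ℝ) : IsCompact (hull w) :=
  (finite_range w).isCompact_convexHull ℝ

theorem convex_hull (w : Fin (n + 1) → Fin n → ℝ) : Convex ℝ (hull w) := convex_convexHull ℝ _

theorem nonempty_interior_hull {w : Fin (n + 1) → Fin n → ℝ} (hw : AffineIndependent ℝ w) :
    (interior (hull w)).Nonempty := by
  unfold hull
  rw [interior_convexHull_nonempty_iff_affineSpan_eq_top]
  rw [hw.affineSpan_eq_top_iff_card_eq_finrank_add_one]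
  simp

theorem closure_interior_hull {w : Fin (n + 1) → Fin n → ℝ} (hw : AffineIndependent ℝ w) :
    closure (interior (hull w)) = hull w := by
  rw [(convex_hull w).closure_interior_eq_closure_of_nonempty_interior
    (nonempty_interior_hull hw), (isCompact_hull w).isClosed.closure_eq]

end Pool.Agent.Helper50.FT
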