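import Pool.Agent.Helper50.FT.Step

/-!
# FT: a motion which makes many simplices flat
-/

namespace Pool.Agent.Helper50.FT

open Set Module

variable {n : ℕ} {ι κ : Type*} [Finite ι] [Finite κ] {P : Set (Fin n → ℝ)}
  {v : ι → Fin (n + 1) → Fin n → ℝ} {e : Fin n → ℝ} {F : κ → Set (Fin n → ℝ)}

theorem Glued.zero : Glued e v F (0 : ι → (Fin n → ℝ) →ᵃ[ℝ] ℝ) :=
  ⟨fun _ _ => Or.inr fun _ _ => rfl, fun _ _ => Or.inr fun _ _ => rfl⟩

omit [Finite ι] [Finite κ] in
theorem Glued.smul {h : ι → (Fin n → ℝ) →ᵃ[ℝ] ℝ} (hg : Glued e v F h) (c : ℝ) :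
    Glued e v F (c • h) := by
  refine ⟨fun s t => (hg.glue s t).imp_right fun h1 x hx => ?_,
    fun s k => (hg.bd s k).imp_right fun h1 x hx => ?_⟩
  · show c * h s x = c * h t x
    rw [h1 x hx]
  · show c * h s x = 0
    rw [h1 x hx, mul_zero]

omit [Finite ι] [Finite κ] in
theorem aff_ext {w : Fin (n + 1) → Fin n → ℝ} (hw : AffineIndependent ℝ w)
    {f g : (Fin n → ℝ) →ᵃ[ℝ] ℝ} (h : ∀ i, f (w i) = g (w i)) : f = g := by
  have hspan : affineSpan ℝ (range w) = ⊤ := by
    rw [hw.affineSpan_eq_top_iff_card_eq_finrank_add_one]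
    simp
  ext x
  have hx : x ∈ affineSpan ℝ (range w) := by
    rw [hspan]
    exact AffineSubspace.mem_top ℝ _ x
  obtain ⟨c, hc, rfl⟩ := eq_affineCombination_of_mem_affineSpan_of_fintype hx
  rw [Finset.map_affineCombination _ _ _ hc, Finset.map_affineCombination _ _ _ hc]
  have h1 : (f ∘ w) = g ∘ w := funext h
  rw [h1]

/-- A glued family of functions whose derivatives in the direction `e` vanish is zero. -/
theorem eq_zero_of_flat (hP : Convex ℝ P) (hPc : IsCompact P) (hv : IsDecomp P v) (he : e ≠ 0)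
    (hF : Ends P e F) {g : ι → (Fin n → ℝ) →ᵃ[ℝ] ℝ} (hg : Glued e v F g)
    (h0 : ∀ s, (g s).linear e = 0) : g = 0 := by
  have hpt : ∀ s, ∀ x ∈ hull (v s), g s x = 0 := by
    intro s x hx
    by_contra hne
    obtain ⟨R, hR⟩ := hPc.isBounded.subset_closedBall x
    have hen : 0 < ‖e‖ := norm_pos_iff.mpr he
    set t : ℝ := (|R| + 1) / (|g s x| * ‖e‖) with ht
    have hgx : 0 < |g s x| := abs_pos.mpr hne
    have h1 : phi ((t • g) s) e x ∈ P := by
      refine phi_mem hP hPc hv he hF (hg.smul t) (fun s' => ?_) s hx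
      have h2 : ((t • g) s').linear e = t * (g s').linear e := rfl
      rw [h2, h0, mul_zero, add_zero]
      exact zero_le_one
    have h2 := hR h1
    rw [phi_apply, Metric.mem_closedBall, dist_eq_norm, add_sub_cancel_left, norm_smul] at h2
    have h3 : (t • g) s x = t * g s x := rfl
    rw [h3, Real.norm_eq_abs, abs_mul, abs_of_nonneg (by positivity : 0 ≤ t)] at h2
    have h4 : t * |g s x| * ‖e‖ = |R| + 1 := by
      rw [ht]
      field_simp
    rw [h4] at h2
    linarith [le_abs_self R]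
  funext s
  exact aff_ext (hv.indep s) fun i => hpt s _ (subset_convexHull ℝ _ (mem_range_self i))

/-- There is a motion in `W` which makes at least `dim W` simplices flat. -/
theorem exists_flat (hP : Convex ℝ P) (hPc : IsCompact P) (hv : IsDecomp P v) (he : e ≠ 0)
    (hF : Ends P e F) (W : Submodule ℝ (ι → (Fin n → ℝ) →ᵃ[ℝ] ℝ))
    (hW : ∀ h ∈ W, Glued e v F h) :
    ∃ h ∈ W, (∀ s, 0 ≤ 1 + (h s).linear e) ∧
      finrank ℝ W ≤ Nat.card {s // 1 + (h s).linear e = 0} := by
  classical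
  haveI : Fintype ι := Fintype.ofFinite ι
  let feas : (ι → (Fin n → ℝ) →ᵃ[ℝ] ℝ) → Prop := fun h => h ∈ W ∧ ∀ s, 0 ≤ 1 + (h s).linear e
  let Z : (ι → (Fin n → ℝ) →ᵃ[ℝ] ℝ) → Finset ι :=
    fun h => Finset.univ.filter fun s => 1 + (h s).linear e = 0
  -- a feasible element with the largest number of flat simplices
  obtain ⟨h, hh, hmax⟩ : ∃ h, feas h ∧ ∀ h', feas h' → (Z h').card ≤ (Z h).card := by
    let A : Set ℕ := {k | ∃ h, feas h ∧ (Z h).card = k}
    have hA1 : A.Nonempty := ⟨_, 0, ⟨W.zero_mem, fun s => by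
      show (0 : ℝ) ≤ 1 + (0 : (Fin n → ℝ) →ᵃ[ℝ] ℝ).linear e
      simp⟩, rfl⟩
    have hA2 : BddAbove A := by
      refine ⟨Fintype.card ι, ?_⟩
      rintro k ⟨h, -, rfl⟩
      exact Finset.card_le_univ _
    obtain ⟨h, hh, hk⟩ := Nat.sSup_mem hA1 hA2
    exact ⟨h, hh, fun h' hh' => by rw [hk]; exact le_csSup hA2 ⟨h', hh', rfl⟩⟩
  refine ⟨h, hh.1, hh.2, ?_⟩
  have hcard : Nat.card {s // 1 + (h s).linear e = 0} = (Z h).card := by
    rw [Nat.card_eq_fintype_card, Fintype.card_subtype]
  rw [hcard]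
  by_contra hlt
  push Not at hlt
  haveI : FiniteDimensional ℝ W := FiniteDimensional.of_finrank_pos (lt_of_le_of_lt
    (Nat.zero_le _) hlt)
  let L : W →ₗ[ℝ] (Z h → ℝ) :=
    { toFun := fun g s => ((g : ι → (Fin n → ℝ) →ᵃ[ℝ] ℝ) s).linear e
      map_add' := fun g g' => by
        funext s
        rfl
      map_smul' := fun c g => by
        funext s
        rfl }
  have hker : LinearMap.ker L ≠ ⊥ := by
    refine LinearMap.ker_ne_bot_of_finrank_lt ?_
    rw [finrank_fintype_fun_eq_card, Fintype.card_coe]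
    exact hlt
  obtain ⟨⟨g, hgW⟩, hgk, hg0⟩ := (Submodule.ne_bot_iff _).mp hker
  have hg0' : g ≠ 0 := fun h0 => hg0 (Subtype.ext h0)
  have hgZ : ∀ s ∈ Z h, (g s).linear e = 0 := by
    intro s hs
    have h1 : L ⟨g, hgW⟩ = 0 := hgk
    exact congrFun h1 ⟨s, hs⟩
  -- the derivatives of `g` do not vanish
  have hex : ∃ s, (g s).linear e ≠ 0 := by
    by_contra hcon
    push Not at hcon
    exact hg0' (eq_zero_of_flat hP hPc hv he hF (hW g hgW) hcon)
  -- replace `g` by `- g` if necessary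
  obtain ⟨g, hgW, hgZ, s1, hs1⟩ : ∃ g ∈ W, (∀ s ∈ Z h, (g s).linear e = 0) ∧
      ∃ s, (g s).linear e < 0 := by
    obtain ⟨s, hs⟩ := hex
    rcases lt_or_gt_of_ne hs with hs | hs
    · exact ⟨g, hgW, hgZ, s, hs⟩
    · refine ⟨-g, W.neg_mem hgW, fun s hs => ?_, s, ?_⟩
      · show -((g s).linear e) = 0
        rw [hgZ s hs, neg_zero]
      · show -((g s).linear e) < 0
        linarith
  let B : Finset ι := Finset.univ.filter fun s => (g s).linear e < 0
  have hB : B.Nonempty := ⟨s1, by simp [B, hs1]⟩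
  obtain ⟨s2, hs2B, hs2⟩ := B.exists_min_image
    (fun s => (1 + (h s).linear e) / (-((g s).linear e))) hB
  have hs2neg : (g s2).linear e < 0 := by simpa [B] using hs2B
  set τ := (1 + (h s2).linear e) / (-((g s2).linear e)) with hτ
  have hτ0 : 0 ≤ τ := div_nonneg (hh.2 s2) (by linarith)
  have hlin : ∀ s, ((h + τ • g) s).linear e = (h s).linear e + τ * (g s).linear e :=
    fun s => rfl
  have hfeas : feas (h + τ • g) := by
    refine ⟨W.add_mem hh.1 (W.smul_mem τ hgW), fun s => ?_⟩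
    rw [hlin]
    by_cases hs : (g s).linear e < 0
    · have h1 := hs2 s (by simp [B, hs])
      rw [le_div_iff₀ (by linarith)] at h1
      linarith
    · push Not at hs
      have h1 := mul_nonneg hτ0 hs
      have h2 := hh.2 s
      linarith
  have hsub : Z h ⊂ Z (h + τ • g) := by
    rw [Finset.ssubset_iff_of_subset]
    · refine ⟨s2, ?_, fun hcon => ?_⟩
      · simp only [Z, Finset.mem_filter, Finset.mem_univ, true_and]
        rw [hlin]
        have h1 : τ * (g s2).linear e = -(1 + (h s2).linear e) := by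
          have h2 : (g s2).linear e ≠ 0 := hs2neg.ne
          rw [hτ]
          field_simp
        rw [h1]
        ring
      · rw [hgZ s2 hcon] at hs2neg
        exact lt_irrefl _ hs2neg
    · intro s hs
      have h1 := hgZ s hs
      simp only [Z, Finset.mem_filter, Finset.mem_univ, true_and] at hs ⊢
      rw [hlin, h1, mul_zero, add_zero]
      exact hs
  have h1 := hmax _ hfeas
  have h2 := Finset.card_lt_card hsub
  omega

/-- If the glued families contain a space `W`, then there is a decomposition with at least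
`dim W` simplices less. -/
theorem exists_smaller (hP : Convex ℝ P) (hPc : IsCompact P) (hv : IsDecomp P v) (he : e ≠ 0)
    (hF : Ends P e F) (W : Submodule ℝ (ι → (Fin n → ℝ) →ᵃ[ℝ] ℝ))
    (hW : ∀ h ∈ W, Glued e v F h) :
    ∃ (N : ℕ) (w : Fin N → Fin (n + 1) → Fin n → ℝ), IsDecomp P w ∧
      N + finrank ℝ W ≤ Nat.card ι := by
  classical
  obtain ⟨h, hh, hpos, hfr⟩ := exists_flat hP hPc hv he hF W hW
  have h1 := step hP hPc hv he hF (hW h hh) hpos
  haveI : Fintype ι := Fintype.ofFinite ι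
  let N := Fintype.card {s // 1 + (h s).linear e ≠ 0}
  let eq : Fin N ≃ {s // 1 + (h s).linear e ≠ 0} := (Fintype.equivFin _).symm
  refine ⟨N, fun k => fun i => phi (h (eq k)) e (v (eq k) i), ⟨fun k => h1.indep (eq k), ?_,
    fun k l hkl => h1.disj (eq k) (eq l) fun h2 => hkl (eq.injective h2)⟩, ?_⟩
  · rw [← h1.cover]
    exact eq.surjective.iUnion_comp
      (fun s : {s // 1 + (h s).linear e ≠ 0} => hull fun i => phi (h s) e (v s i))
  · have h2 : Nat.card {s // 1 + (h s).linear e = 0} + N = Nat.card ι := by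
      rw [Nat.card_eq_fintype_card, Nat.card_eq_fintype_card]
      show Fintype.card {s // 1 + (h s).linear e = 0} +
        Fintype.card {s // ¬ (1 + (h s).linear e = 0)} = Fintype.card ι
      rw [Fintype.card_subtype_compl]
      have h3 := Fintype.card_subtype_le (fun s => 1 + (h s).linear e = 0)
      omega
    omega

end Pool.Agent.Helper50.FT
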