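import Pool.Agent.Helper50.FT.Dim

/-!
# FT: face-to-face decompositions of the cube
-/

namespace Pool.Agent.Helper50.FT

open Set Module

variable {n : ℕ}

/-- The affine basis of the vertices of a simplex. -/
noncomputable def bas (w : Fin (n + 1) → Fin n → ℝ) (hw : AffineIndependent ℝ w) :
    AffineBasis (Fin (n + 1)) ℝ (Fin n → ℝ) :=
  ⟨w, hw, by
    rw [hw.affineSpan_eq_top_iff_card_eq_finrank_add_one]
    simp⟩

theorem bas_apply (w : Fin (n + 1) → Fin n → ℝ) (hw : AffineIndependent ℝ w) (i : Fin (n + 1)) :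
    bas w hw i = w i := rfl

theorem mem_hull_iff (w : Fin (n + 1) → Fin n → ℝ) (hw : AffineIndependent ℝ w)
    (x : Fin n → ℝ) : x ∈ hull w ↔ ∀ i, 0 ≤ (bas w hw).coord i x := by
  have h := (bas w hw).convexHull_eq_nonneg_coord
  have h1 : hull w = {x | ∀ i, 0 ≤ (bas w hw).coord i x} := h
  rw [h1]
  rfl

/-- The affine function with the values `c (w i)` at the vertices `w i`. -/
noncomputable def hat (w : Fin (n + 1) → Fin n → ℝ) (hw : AffineIndependent ℝ w)
    (c : (Fin n → ℝ) → ℝ) : (Fin n → ℝ) →ᵃ[ℝ] ℝ where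
  toFun x := ∑ j, c (w j) * (bas w hw).coord j x
  linear := ∑ j, c (w j) • ((bas w hw).coord j).linear
  map_vadd' p u := by
    have h : ∀ j, (bas w hw).coord j (u + p) =
        ((bas w hw).coord j).linear u + (bas w hw).coord j p := fun j =>
      ((bas w hw).coord j).map_vadd p u
    simp only [h, vadd_eq_add, LinearMap.sum_apply, LinearMap.smul_apply,
      smul_eq_mul, mul_add, Finset.sum_add_distrib]

theorem hat_apply (w : Fin (n + 1) → Fin n → ℝ) (hw : AffineIndependent ℝ w)
    (c : (Fin n → ℝ) → ℝ) (x : Fin n → ℝ) :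
    hat w hw c x = ∑ j, c (w j) * (bas w hw).coord j x := rfl

theorem hat_vertex (w : Fin (n + 1) → Fin n → ℝ) (hw : AffineIndependent ℝ w)
    (c : (Fin n → ℝ) → ℝ) (i : Fin (n + 1)) : hat w hw c (w i) = c (w i) := by
  rw [hat_apply, Finset.sum_eq_single i]
  · have h : (bas w hw).coord i (w i) = 1 := (bas w hw).coord_apply_eq i
    rw [h, mul_one]
  · intro j _ hj
    have h : (bas w hw).coord j (w i) = 0 := (bas w hw).coord_apply_ne hj
    rw [h, mul_zero]
  · intro h
    exact absurd (Finset.mem_univ i) h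

/-- A point of a simplex whose `i`-th barycentric coordinate is at least `1` is the `i`-th
vertex. -/
theorem eq_vertex (w : Fin (n + 1) → Fin n → ℝ) (hw : AffineIndependent ℝ w)
    {x : Fin n → ℝ} (hx : x ∈ hull w) {i : Fin (n + 1)} (hi : 1 ≤ (bas w hw).coord i x) :
    x = w i := by
  rw [mem_hull_iff w hw] at hx
  have hsum := (bas w hw).sum_coord_apply_eq_one x
  rw [← Finset.add_sum_erase _ _ (Finset.mem_univ i)] at hsum
  have h1 : 0 ≤ ∑ j ∈ Finset.univ.erase i, (bas w hw).coord j x :=
    Finset.sum_nonneg fun j _ => hx j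
  have h2 : ∑ j ∈ Finset.univ.erase i, (bas w hw).coord j x = 0 := by linarith
  rw [Finset.sum_eq_zero_iff_of_nonneg fun j _ => hx j] at h2
  have h3 := (bas w hw).linear_combination_coord_eq_self x
  rw [← h3, Finset.sum_eq_single i]
  · have h4 : (bas w hw).coord i x = 1 := by linarith
    rw [h4, one_smul]
    rfl
  · intro j _ hj
    rw [h2 j (Finset.mem_erase.mpr ⟨hj, Finset.mem_univ j⟩), zero_smul]
  · intro h
    exact absurd (Finset.mem_univ i) h

/-- A vertex of a simplex which is in the convex hull of a subset of the simplex belongs to the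
subset. -/
theorem vertex_mem (w : Fin (n + 1) → Fin n → ℝ) (hw : AffineIndependent ℝ w)
    {C : Set (Fin n → ℝ)} (hC : C ⊆ hull w) {i : Fin (n + 1)} (hi : w i ∈ convexHull ℝ C) :
    w i ∈ C := by
  by_contra hcon
  have h1 : C ⊆ {x | (bas w hw).coord i x < 1} := by
    intro x hx
    by_contra h2
    simp only [mem_setOf_eq, not_lt] at h2
    rw [← eq_vertex w hw (hC hx) h2] at hcon
    exact hcon hx
  have h2 : Convex ℝ {x | (bas w hw).coord i x < 1} := by
    have h3 : {x | (bas w hw).coord i x < 1} = (bas w hw).coord i ⁻¹' Iio 1 := rfl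
    rw [h3]
    exact (convex_Iio (1 : ℝ)).affine_preimage _
  have h3 := convexHull_min h1 h2 hi
  have h4 : (bas w hw).coord i (w i) = 1 := (bas w hw).coord_apply_eq i
  simp only [mem_setOf_eq, h4, lt_irrefl] at h3

/-- Any two simplices meet in a face of each of them (possibly empty). -/
def FaceToFace {ι : Type*} (v : ι → Fin (n + 1) → Fin n → ℝ) : Prop :=
  ∀ s t, ∃ A B : Set (Fin (n + 1)), hull (v s) ∩ hull (v t) = convexHull ℝ (v s '' A) ∧
    hull (v s) ∩ hull (v t) = convexHull ℝ (v t '' B)

theorem hat_eq {w z : Fin (n + 1) → Fin n → ℝ} (hw : AffineIndependent ℝ w)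
    (hz : AffineIndependent ℝ z) {A B : Set (Fin (n + 1))}
    (hA : hull w ∩ hull z = convexHull ℝ (w '' A)) (hB : hull w ∩ hull z = convexHull ℝ (z '' B))
    (c : (Fin n → ℝ) → ℝ) {x : Fin n → ℝ} (hx : x ∈ hull w ∩ hull z) :
    hat w hw c x = hat z hz c x := by
  have h1 : w '' A ⊆ {x | hat w hw c x = hat z hz c x} := by
    rintro _ ⟨i, hi, rfl⟩
    have h2 : z '' B ⊆ hull w := by
      refine (subset_convexHull ℝ _).trans ?_
      rw [← hB]
      exact inter_subset_left
    have h3 : w i ∈ convexHull ℝ (z '' B) := by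
      rw [← hB, hA]
      exact subset_convexHull ℝ _ (mem_image_of_mem _ hi)
    obtain ⟨j, _, hj⟩ := vertex_mem w hw h2 h3
    show hat w hw c (w i) = hat z hz c (w i)
    rw [hat_vertex, ← hj, hat_vertex]
  have h2 : Convex ℝ {x | hat w hw c x = hat z hz c x} := by
    have h3 : {x | hat w hw c x = hat z hz c x} = (hat w hw c - hat z hz c) ⁻¹' {0} := by
      ext x
      simp [sub_eq_zero]
    rw [h3]
    exact (convex_singleton (0 : ℝ)).affine_preimage _
  rw [hA] at hx
  exact convexHull_min h1 h2 hx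

theorem hull_subset_cube {ι : Type*} {v : ι → Fin (n + 1) → Fin n → ℝ}
    (hv : IsDecomp (Icc 0 1) v) (s : ι) : hull (v s) ⊆ Icc 0 1 := by
  rw [← hv.cover]
  exact subset_iUnion (fun s => hull (v s)) s

theorem vertex_mem_cube {ι : Type*} {v : ι → Fin (n + 1) → Fin n → ℝ}
    (hv : IsDecomp (Icc 0 1) v) (s : ι) (j : Fin (n + 1)) : v s j ∈ Icc (0 : Fin n → ℝ) 1 :=
  hull_subset_cube hv s (subset_convexHull ℝ _ (mem_range_self j))

/-- A function which vanishes at the vertices on a facet of the cube vanishes on the facet. -/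
theorem hat_facet {ι : Type*} {v : ι → Fin (n + 1) → Fin n → ℝ} (hv : IsDecomp (Icc 0 1) v)
    (s : ι) {i : Fin n} {ε : ℝ} (hε : ε = 0 ∨ ε = 1) {c : (Fin n → ℝ) → ℝ}
    (hc : ∀ x : Fin n → ℝ, x i = ε → c x = 0) {x : Fin n → ℝ} (hx : x ∈ hull (v s))
    (hxi : x i = ε) : hat (v s) (hv.indep s) c x = 0 := by
  have hx' := (mem_hull_iff (v s) (hv.indep s) x).mp hx
  set b := bas (v s) (hv.indep s) with hb
  have h1 : x i = ∑ j, b.coord j x * v s j i := by
    have h2 := congrFun (b.linear_combination_coord_eq_self x) i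
    rw [Finset.sum_apply] at h2
    exact h2.symm
  have hsum := b.sum_coord_apply_eq_one x
  -- the terms vanish
  have h2 : ∀ j, b.coord j x * (v s j i - ε) = 0 := by
    rcases hε with rfl | rfl
    · have h3 : ∑ j, b.coord j x * v s j i = 0 := by rw [← h1, hxi]
      rw [Finset.sum_eq_zero_iff_of_nonneg fun j _ =>
        mul_nonneg (hx' j) ((vertex_mem_cube hv s j).1 i)] at h3
      intro j
      rw [sub_zero]
      exact h3 j (Finset.mem_univ j)
    · have h3 : ∑ j, b.coord j x * (1 - v s j i) = 0 := by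
        simp only [mul_sub, mul_one, Finset.sum_sub_distrib]
        rw [hsum, ← h1, hxi, sub_self]
      rw [Finset.sum_eq_zero_iff_of_nonneg fun j _ =>
        mul_nonneg (hx' j) (sub_nonneg.mpr (show v s j i ≤ 1 from
          (vertex_mem_cube hv s j).2 i))] at h3
      intro j
      have h4 := h3 j (Finset.mem_univ j)
      linarith
  rw [hat_apply]
  refine Finset.sum_eq_zero fun j _ => ?_
  rcases mul_eq_zero.mp (h2 j) with h3 | h3
  · show c (v s j) * b.coord j x = 0
    rw [h3, mul_zero]
  · rw [hc (v s j) (by linarith), zero_mul]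

/-- The vertices of the decomposition with `i`-th coordinate different from `0` and `1`. -/
def midVertices {ι : Type*} (v : ι → Fin (n + 1) → Fin n → ℝ) (i : Fin n) : Set (Fin n → ℝ) :=
  {x | (∃ s j, v s j = x) ∧ x i ≠ 0 ∧ x i ≠ 1}

theorem finite_midVertices {ι : Type*} [Finite ι] (v : ι → Fin (n + 1) → Fin n → ℝ)
    (i : Fin n) : (midVertices v i).Finite := by
  refine (finite_range fun p : ι × Fin (n + 1) => v p.1 p.2).subset ?_
  rintro x ⟨⟨s, j, h⟩, -⟩
  exact ⟨(s, j), h⟩

theorem ends_cube (i : Fin n) : Ends (Icc (0 : Fin n → ℝ) 1) (Pi.single i 1)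
    (fun k : Bool => {x : Fin n → ℝ | x i = if k then 1 else 0}) := by
  intro x hx hor
  rcases hor with h | h
  · refine ⟨true, ?_⟩
    show x i = if true = true then 1 else 0
    rw [if_pos rfl]
    by_contra hne
    have h1 : x i < 1 := lt_of_le_of_ne (hx.2 i) hne
    refine h (1 - x i) (by linarith) ⟨fun j => ?_, fun j => ?_⟩
    · by_cases hj : j = i
      · subst hj
        simp
      · simp only [Pi.add_apply, Pi.smul_apply, Pi.single_eq_of_ne hj, smul_zero, add_zero]
        exact hx.1 j
    · by_cases hj : j = i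
      · subst hj
        simp
      · simp only [Pi.add_apply, Pi.smul_apply, Pi.single_eq_of_ne hj, smul_zero, add_zero]
        exact hx.2 j
  · refine ⟨false, ?_⟩
    show x i = if false = true then 1 else 0
    rw [if_neg Bool.false_ne_true]
    by_contra hne
    have h1 : 0 < x i := lt_of_le_of_ne (hx.1 i) (Ne.symm hne)
    refine h (x i) h1 ⟨fun j => ?_, fun j => ?_⟩
    · by_cases hj : j = i
      · subst hj
        simp
      · simp only [Pi.sub_apply, Pi.smul_apply, Pi.single_eq_of_ne hj, smul_zero, sub_zero]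
        exact hx.1 j
    · by_cases hj : j = i
      · subst hj
        simp
      · simp only [Pi.sub_apply, Pi.smul_apply, Pi.single_eq_of_ne hj, smul_zero, sub_zero]
        exact hx.2 j

/-- Every face-to-face decomposition has at least as many simplices more than some other
decomposition as it has vertices with `i`-th coordinate different from `0` and `1`. -/
theorem ff_smaller {ι : Type*} [Finite ι] {v : ι → Fin (n + 1) → Fin n → ℝ}
    (hv : IsDecomp (Icc 0 1) v) (hff : FaceToFace v) (i : Fin n) :
    ∃ (N : ℕ) (w : Fin N → Fin (n + 1) → Fin n → ℝ), IsDecomp (Icc 0 1) w ∧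
      N + (midVertices v i).ncard ≤ Nat.card ι := by
  classical
  set X := midVertices v i with hX
  haveI : Fintype X := (finite_midVertices v i).fintype
  let ext : (X → ℝ) → (Fin n → ℝ) → ℝ := fun c x => if hx : x ∈ X then c ⟨x, hx⟩ else 0
  let Φ : (X → ℝ) →ₗ[ℝ] (ι → (Fin n → ℝ) →ᵃ[ℝ] ℝ) :=
    { toFun := fun c s => hat (v s) (hv.indep s) (ext c)
      map_add' := fun c d => by
        funext s
        refine aff_ext (hv.indep s) fun j => ?_
        show hat (v s) (hv.indep s) (ext (c + d)) (v s j) =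
          hat (v s) (hv.indep s) (ext c) (v s j) + hat (v s) (hv.indep s) (ext d) (v s j)
        rw [hat_vertex, hat_vertex, hat_vertex]
        by_cases hx : v s j ∈ X
        · simp [ext, hx]
        · simp [ext, hx]
      map_smul' := fun a c => by
        funext s
        refine aff_ext (hv.indep s) fun j => ?_
        show hat (v s) (hv.indep s) (ext (a • c)) (v s j) =
          a * hat (v s) (hv.indep s) (ext c) (v s j)
        rw [hat_vertex, hat_vertex]
        by_cases hx : v s j ∈ X
        · simp [ext, hx]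
        · simp [ext, hx] }
  have hinj : Function.Injective Φ := by
    intro c d hcd
    funext ⟨x, hx⟩
    have hx2 := hx
    obtain ⟨⟨s, j, hsj⟩, -⟩ := hx2
    have h1 : hat (v s) (hv.indep s) (ext c) (v s j) = hat (v s) (hv.indep s) (ext d) (v s j) :=
      congrArg (fun f : (Fin n → ℝ) →ᵃ[ℝ] ℝ => f (v s j)) (congrFun hcd s)
    rw [hat_vertex, hat_vertex, hsj] at h1
    simp only [ext, dif_pos hx] at h1
    exact h1
  have hglued : ∀ h ∈ LinearMap.range Φ, Glued (Pi.single i 1 : Fin n → ℝ) v
      (fun k : Bool => {x : Fin n → ℝ | x i = if k then 1 else 0}) h := by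
    rintro _ ⟨c, rfl⟩
    refine ⟨fun s t => Or.inr fun x hx => ?_, fun s k => Or.inr fun x hx => ?_⟩
    · obtain ⟨A, B, hA, hB⟩ := hff s t
      exact hat_eq (hv.indep s) (hv.indep t) hA hB (ext c) hx
    · refine hat_facet hv s (ε := if k then 1 else 0) ?_ ?_ hx.1 hx.2
      · cases k
        · left
          simp
        · right
          simp
      · intro y hy
        have hyX : y ∉ X := by
          rintro ⟨-, h0, h1⟩
          cases k
          · exact h0 (by simpa using hy)
          · exact h1 (by simpa using hy)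
        simp [ext, hyX]
  have he : (Pi.single i 1 : Fin n → ℝ) ≠ 0 := by
    intro h0
    have h1 := congrFun h0 i
    simp at h1
  obtain ⟨N, w, hw, hN⟩ := exists_smaller (convex_Icc (0 : Fin n → ℝ) 1) isCompact_Icc hv he
    (ends_cube i) (LinearMap.range Φ) hglued
  refine ⟨N, w, hw, ?_⟩
  have h1 : finrank ℝ (LinearMap.range Φ) = X.ncard := by
    rw [LinearMap.finrank_range_of_inj hinj, finrank_fintype_fun_eq_card,
      ← Nat.card_eq_fintype_card]
    rfl
  rw [h1] at hN
  exact hN

end Pool.Agent.Helper50.FT
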