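import Pool.Agent.Helper50.FT.FF

/-!
# FT: vertices near which the decomposition is face to face
-/

namespace Pool.Agent.Helper50.FT

open Set Module

variable {n : ℕ}

/-- Two simplices meet in a common face (possibly empty). -/
def Meet (w z : Fin (n + 1) → Fin n → ℝ) : Prop :=
  ∃ A B : Set (Fin (n + 1)), hull w ∩ hull z = convexHull ℝ (w '' A) ∧
    hull w ∩ hull z = convexHull ℝ (z '' B)

/-- Any two simplices which contain `x` meet in a common face. -/
def LocalFF {ι : Type*} (v : ι → Fin (n + 1) → Fin n → ℝ) (x : Fin n → ℝ) : Prop :=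
  ∀ s t, x ∈ hull (v s) → x ∈ hull (v t) → Meet (v s) (v t)

/-- A finite number of closed sets which cover `(z, y]`: one of them contains `z` and
accumulates to the right of `z`. -/
theorem exists_accum {ι : Type*} [Finite ι] {I : ι → Set ℝ} (hI : ∀ s, IsClosed (I s))
    (hIc : ∀ s, Convex ℝ (I s)) {z y : ℝ} (hzy : z < y)
    (hcov : ∀ w, z < w → w ≤ y → ∃ s, w ∈ I s) : ∃ s, ∃ w > z, w ≤ y ∧ Icc z w ⊆ I s := by
  have h0 : ∃ s, ∀ ε > 0, ∃ w ∈ I s, z < w ∧ w < z + ε ∧ w ≤ y := by
    by_contra hcon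
    push Not at hcon
    choose ε hε h2 using hcon
    obtain ⟨δ, hδ, h3⟩ : ∃ δ > 0, ∀ s, δ ≤ ε s := by
      by_cases hne : Nonempty ι
      · obtain ⟨s0, hs0⟩ := Finite.exists_min ε
        exact ⟨ε s0, hε s0, hs0⟩
      · exact ⟨1, one_pos, fun s => absurd ⟨s⟩ hne⟩
    have h5 : 0 < min (δ / 2) (y - z) := lt_min (by linarith) (by linarith)
    have h6 := min_le_right (δ / 2) (y - z)
    have h7 := min_le_left (δ / 2) (y - z)
    obtain ⟨s, hs⟩ := hcov (z + min (δ / 2) (y - z)) (by linarith) (by linarith)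
    have h8 := h2 s _ hs (by linarith) (by linarith [h3 s])
    linarith
  obtain ⟨s, hs⟩ := h0
  have hz : z ∈ I s := by
    rw [← (hI s).closure_eq, Metric.mem_closure_iff]
    intro ε hε
    obtain ⟨w, hw, h1, h2, -⟩ := hs ε hε
    refine ⟨w, hw, ?_⟩
    rw [Real.dist_eq, abs_sub_comm, abs_of_pos (by linarith)]
    linarith
  obtain ⟨w, hw, h1, -, h3⟩ := hs 1 one_pos
  exact ⟨s, w, h1, h3, (hIc s).ordConnected.out hz hw⟩

/-- A simplex does not meet the interior of another one. -/
theorem disj_interior {ι : Type*} {P : Set (Fin n → ℝ)} {v : ι → Fin (n + 1) → Fin n → ℝ}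
    (hv : IsDecomp P v) {r t : ι} (hrt : r ≠ t) {p : Fin n → ℝ} (hp : p ∈ hull (v r))
    (hp2 : p ∈ interior (hull (v t))) : False := by
  rw [← closure_interior_hull (hv.indep r), mem_closure_iff] at hp
  obtain ⟨q, hq1, hq2⟩ := hp _ isOpen_interior hp2
  exact Set.disjoint_left.mp (hv.disj r t hrt) hq2 hq1

theorem coord_lin {w : Fin (n + 1) → Fin n → ℝ} (hw : AffineIndependent ℝ w) (i : Fin (n + 1))
    {a b : ℝ} (hab : a + b = 1) (x y : Fin n → ℝ) :
    (bas w hw).coord i (a • x + b • y) = a * (bas w hw).coord i x + b * (bas w hw).coord i y := by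
  have h := Convex.combo_affine_apply (f := (bas w hw).coord i) (x := x) (y := y) hab
  simpa using h

theorem vertex_of_mem {ι : Type*} {v : ι → Fin (n + 1) → Fin n → ℝ}
    (hind : ∀ s, AffineIndependent ℝ (v s)) {x : Fin n → ℝ} (hx : LocalFF v x) {s0 : ι}
    {j0 : Fin (n + 1)} (hx0 : v s0 j0 = x) {s : ι} (hs : x ∈ hull (v s)) : ∃ j, v s j = x := by
  have h0 : x ∈ hull (v s0) := by
    rw [← hx0]
    exact subset_convexHull ℝ _ (mem_range_self j0)
  obtain ⟨A, B, hA, hB⟩ := hx s s0 hs h0
  have h1 : v s '' A ⊆ hull (v s0) := by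
    refine (subset_convexHull ℝ _).trans ?_
    rw [← hA]
    exact inter_subset_right
  have h2 : v s0 j0 ∈ convexHull ℝ (v s '' A) := by
    rw [← hA, hx0]
    exact ⟨hs, h0⟩
  obtain ⟨j, -, hj⟩ := vertex_mem (v s0) (hind s0) h1 h2
  exact ⟨j, by rw [hj, hx0]⟩

/-- The simplices which do not contain `x` do not meet the open star of `x`. -/
theorem coord_eq_zero {ι : Type*} [Finite ι] {P : Set (Fin n → ℝ)}
    {v : ι → Fin (n + 1) → Fin n → ℝ} (hP : Convex ℝ P) (hPc : IsCompact P)
    (hv : IsDecomp P v) {x : Fin n → ℝ} (hx : LocalFF v x) {s t : ι} {j : Fin (n + 1)}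
    (hj : v s j = x) (ht : x ∉ hull (v t)) {y : Fin n → ℝ} (hys : y ∈ hull (v s))
    (hyt : y ∈ hull (v t)) : (bas (v s) (hv.indep s)).coord j y = 0 := by
  classical
  have hys' := (mem_hull_iff (v s) (hv.indep s) y).mp hys
  by_contra hne
  have hpos : 0 < (bas (v s) (hv.indep s)).coord j y := lt_of_le_of_ne (hys' j) (Ne.symm hne)
  have hxs : x ∈ hull (v s) := by
    rw [← hj]
    exact subset_convexHull ℝ _ (mem_range_self j)
  have hsub : ∀ r, hull (v r) ⊆ P := fun r => by
    rw [← hv.cover]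
    exact subset_iUnion (fun s => hull (v s)) r
  obtain ⟨z, hz⟩ := nonempty_interior_hull (hv.indep t)
  -- the points `p τ` of the simplex `t`
  let p : ℝ → Fin n → ℝ := fun τ => (1 - τ) • y + τ • z
  have hpint : ∀ τ, 0 < τ → τ ≤ 1 → p τ ∈ interior (hull (v t)) := by
    intro τ h0 h1
    exact (convex_hull (v t)).combo_self_interior_mem_interior hyt hz (by linarith) h0 (by ring)
  -- near `x` there are only simplices which contain `x`
  obtain ⟨ε, hε, hε1, hnear⟩ : ∃ ε > (0 : ℝ), ε ≤ 1 ∧ ∀ q ∈ P, ∀ r,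
      (1 - ε) • x + ε • q ∈ hull (v r) → x ∈ hull (v r) := by
    have hO : IsOpen (⋂ r : {r // x ∉ hull (v r)}, (hull (v r.1))ᶜ) :=
      isOpen_iInter_of_finite fun r => (isCompact_hull _).isClosed.isOpen_compl
    have hxO : x ∈ (⋂ r : {r // x ∉ hull (v r)}, (hull (v r.1))ᶜ) :=
      mem_iInter.mpr fun r => r.2
    obtain ⟨δ, hδ, hball⟩ := Metric.isOpen_iff.mp hO x hxO
    obtain ⟨R, hR⟩ := hPc.isBounded.subset_closedBall x
    refine ⟨min 1 (δ / (2 * (|R| + 1))), lt_min one_pos (by positivity), min_le_left _ _,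
      fun q hq r hr => ?_⟩
    by_contra hxr
    set ε := min 1 (δ / (2 * (|R| + 1))) with hεdef
    have hε0 : 0 < ε := lt_min one_pos (by positivity)
    have h1 : (1 - ε) • x + ε • q ∈ Metric.ball x δ := by
      rw [Metric.mem_ball, dist_eq_norm]
      have h2 : (1 - ε) • x + ε • q - x = ε • (q - x) := by module
      rw [h2, norm_smul, Real.norm_of_nonneg hε0.le, ← dist_eq_norm]
      have h3 : dist q x ≤ R := hR hq
      have h4 : ε ≤ δ / (2 * (|R| + 1)) := min_le_right _ _
      have h5 : 0 < |R| + 1 := by positivity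
      calc ε * dist q x ≤ δ / (2 * (|R| + 1)) * (|R| + 1) := by
            refine mul_le_mul h4 ?_ dist_nonneg (by positivity)
            linarith [le_abs_self R]
        _ = δ / 2 := by field_simp
        _ < δ := by linarith
    have h2 := mem_iInter.mp (hball h1) ⟨r, hxr⟩
    exact h2 hr
  -- the points `q τ` near `x`
  let q : ℝ → Fin n → ℝ := fun τ => (1 - ε) • x + ε • p τ
  have hqcont : Continuous q := by
    show Continuous fun τ : ℝ => (1 - ε) • x + ε • ((1 - τ) • y + τ • z)
    fun_prop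
  have hqconv : ∀ a b τ τ' : ℝ, a + b = 1 → q (a * τ + b * τ') = a • q τ + b • q τ' := by
    intro a b τ τ' hab
    have hb : b = 1 - a := by linarith
    subst hb
    show (1 - ε) • x + ε • ((1 - (a * τ + (1 - a) * τ')) • y + (a * τ + (1 - a) * τ') • z) =
      a • ((1 - ε) • x + ε • ((1 - τ) • y + τ • z)) +
        (1 - a) • ((1 - ε) • x + ε • ((1 - τ') • y + τ' • z))
    module
  have hqP : ∀ τ, 0 < τ → τ ≤ 1 → q τ ∈ P := fun τ h0 h1 =>
    hP (hsub s hxs) (hsub t (interior_subset (hpint τ h0 h1))) (by linarith) hε.le (by ring)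
  obtain ⟨⟨r, hxr⟩, w, hw0, hw1, hwI⟩ := exists_accum
    (I := fun r : {r // x ∈ hull (v r)} => q ⁻¹' hull (v r.1))
    (fun r => (isCompact_hull _).isClosed.preimage hqcont)
    (fun r τ hτ τ' hτ' a b ha hb hab => by
      show q (a • τ + b • τ') ∈ hull (v r.1)
      rw [smul_eq_mul, smul_eq_mul, hqconv a b τ τ' hab]
      exact convex_hull _ hτ hτ' ha hb hab)
    (show (0 : ℝ) < 1 from one_pos) (fun τ h0 h1 => by
      have h2 := hqP τ h0 h1
      rw [← hv.cover] at h2
      obtain ⟨r, hr⟩ := mem_iUnion.mp h2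
      exact ⟨⟨r, hnear _ (hsub t (interior_subset (hpint τ h0 h1))) r hr⟩, hr⟩)
  have hrt : r ≠ t := by
    rintro rfl
    exact ht hxr
  have hq0 : q 0 ∈ hull (v r) := hwI (left_mem_Icc.mpr hw0.le)
  have hq0' : q 0 = (1 - ε) • x + ε • y := by
    show (1 - ε) • x + ε • ((1 - 0) • y + (0 : ℝ) • z) = _
    simp
  rw [hq0'] at hq0
  -- the common face of `s` and `r`
  obtain ⟨A, B, hA, hB⟩ := hx s r hxs hxr
  have hq0s : (1 - ε) • x + ε • y ∈ hull (v s) :=
    convex_hull _ hxs hys (by linarith) hε.le (by ring)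
  have hface : ∀ k, 0 < (bas (v s) (hv.indep s)).coord k y → k ∈ A := by
    intro k hk
    by_contra hkA
    have h1 : v s '' A ⊆ {u | (bas (v s) (hv.indep s)).coord k u = 0} := by
      rintro _ ⟨l, hl, rfl⟩
      have hkl : k ≠ l := fun h => hkA (h ▸ hl)
      exact (bas (v s) (hv.indep s)).coord_apply_ne hkl
    have h2 : Convex ℝ {u | (bas (v s) (hv.indep s)).coord k u = 0} := by
      have h3 : {u | (bas (v s) (hv.indep s)).coord k u = 0} =
        (bas (v s) (hv.indep s)).coord k ⁻¹' {0} := rfl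
      rw [h3]
      exact (convex_singleton (0 : ℝ)).affine_preimage _
    have h3 : (1 - ε) • x + ε • y ∈ convexHull ℝ (v s '' A) := by
      rw [← hA]
      exact ⟨hq0s, hq0⟩
    have h4 : (bas (v s) (hv.indep s)).coord k ((1 - ε) • x + ε • y) = 0 :=
      convexHull_min h1 h2 h3
    rw [coord_lin (hv.indep s) k (by ring)] at h4
    have h5 : 0 ≤ (bas (v s) (hv.indep s)).coord k x :=
      (mem_hull_iff (v s) (hv.indep s) x).mp hxs k
    have h6 := mul_pos hε hk
    have h7 := mul_nonneg (by linarith : 0 ≤ 1 - ε) h5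
    linarith
  -- the vertices of `s` in the face are vertices of `r`
  have hvert : ∀ k ∈ A, ∃ l, v r l = v s k := by
    intro k hk
    have h2 : v r '' B ⊆ hull (v s) := by
      refine (subset_convexHull ℝ _).trans ?_
      rw [← hB]
      exact inter_subset_left
    have h3 : v s k ∈ convexHull ℝ (v r '' B) := by
      rw [← hB, hA]
      exact subset_convexHull ℝ _ (mem_image_of_mem _ hk)
    obtain ⟨l, _, hl⟩ := vertex_mem (v s) (hv.indep s) h2 h3
    exact ⟨l, hl⟩
  -- `y` lies in the common face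
  have hyA : y ∈ convexHull ℝ (v s '' A) := by
    have h1 := (bas (v s) (hv.indep s)).linear_combination_coord_eq_self y
    rw [← h1]
    rw [← Finset.sum_filter_add_sum_filter_not Finset.univ
      (fun k => 0 < (bas (v s) (hv.indep s)).coord k y)]
    have h2 : ∑ k ∈ Finset.univ.filter (fun k => ¬ 0 < (bas (v s) (hv.indep s)).coord k y),
        (bas (v s) (hv.indep s)).coord k y • bas (v s) (hv.indep s) k = 0 := by
      refine Finset.sum_eq_zero fun k hk => ?_
      have h3 : (bas (v s) (hv.indep s)).coord k y = 0 :=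
        le_antisymm (not_lt.mp (Finset.mem_filter.mp hk).2) (hys' k)
      rw [h3, zero_smul]
    rw [h2, add_zero]
    refine (convex_convexHull ℝ _).sum_mem (fun k _ => hys' k) ?_ fun k hk => ?_
    · have h3 := (bas (v s) (hv.indep s)).sum_coord_apply_eq_one y
      rw [← Finset.sum_filter_add_sum_filter_not Finset.univ
        (fun k => 0 < (bas (v s) (hv.indep s)).coord k y)] at h3
      have h4 : ∑ k ∈ Finset.univ.filter (fun k => ¬ 0 < (bas (v s) (hv.indep s)).coord k y),
          (bas (v s) (hv.indep s)).coord k y = 0 := by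
        refine Finset.sum_eq_zero fun k hk => ?_
        exact le_antisymm (not_lt.mp (Finset.mem_filter.mp hk).2) (hys' k)
      rw [h4, add_zero] at h3
      exact h3
    · exact subset_convexHull ℝ _ ⟨k, hface k (Finset.mem_filter.mp hk).2, rfl⟩
  have hyr : y ∈ hull (v r) := by
    rw [← hA] at hyA
    exact hyA.2
  have hyr' := (mem_hull_iff (v r) (hv.indep r) y).mp hyr
  obtain ⟨jr, hjr⟩ : ∃ l, v r l = x := by
    obtain ⟨l, hl⟩ := hvert j (hface j hpos)
    exact ⟨l, by rw [hl, hj]⟩
  -- the coordinate of `y` at `x` in `r` is positive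
  have hypos : 0 < (bas (v r) (hv.indep r)).coord jr y := by
    have h1 := hat_eq (hv.indep s) (hv.indep r) hA hB (fun u => if u = x then 1 else 0)
      (x := y) ⟨hys, hyr⟩
    rw [hat_apply, hat_apply] at h1
    have h2 : ∀ (a : ι) (ja : Fin (n + 1)), v a ja = x → ∑ k, (if v a k = x then (1 : ℝ) else 0) *
        (bas (v a) (hv.indep a)).coord k y = (bas (v a) (hv.indep a)).coord ja y := by
      intro a ja ha
      rw [Finset.sum_eq_single ja]
      · rw [if_pos ha, one_mul]
      · intro k _ hk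
        have h3 : v a k ≠ x := by
          rw [← ha]
          exact fun h4 => hk ((hv.indep a).injective h4)
        rw [if_neg h3, zero_mul]
      · intro h
        exact absurd (Finset.mem_univ _) h
    rw [h2 s j hj, h2 r jr hjr] at h1
    rw [← h1]
    exact hpos
  -- for small `τ` the point `p τ` lies in `r`
  obtain ⟨τ, hτ0, hτ1, hτ2, hτ3⟩ : ∃ τ > (0 : ℝ), τ ≤ 1 ∧ τ ≤ w ∧
      0 < (bas (v r) (hv.indep r)).coord jr (p τ) := by
    have hcont : Continuous fun τ => (bas (v r) (hv.indep r)).coord jr (p τ) := by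
      have h1 := AffineMap.continuous_of_finiteDimensional ((bas (v r) (hv.indep r)).coord jr)
      have h2 : Continuous p := by
        show Continuous fun τ : ℝ => (1 - τ) • y + τ • z
        fun_prop
      exact h1.comp h2
    have h0 : 0 < (bas (v r) (hv.indep r)).coord jr (p 0) := by
      have h1 : p 0 = y := by
        show (1 - 0) • y + (0 : ℝ) • z = y
        simp
      rw [h1]
      exact hypos
    obtain ⟨δ, hδ, hball⟩ := Metric.isOpen_iff.mp (isOpen_lt continuous_const hcont) 0 h0
    have h1 : 0 < min (δ / 2) (min 1 w) := lt_min (by linarith) (lt_min one_pos hw0)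
    refine ⟨min (δ / 2) (min 1 w), h1, (min_le_right _ _).trans (min_le_left _ _),
      (min_le_right _ _).trans (min_le_right _ _), hball ?_⟩
    rw [Metric.mem_ball, Real.dist_eq, sub_zero, abs_of_pos h1]
    have := min_le_left (δ / 2) (min 1 w)
    linarith
  have hpr : p τ ∈ hull (v r) := by
    rw [mem_hull_iff (v r) (hv.indep r)]
    intro l
    by_cases hl : l = jr
    · rw [hl]
      exact hτ3.le
    · have h1 : q τ ∈ hull (v r) := hwI ⟨hτ0.le, hτ2⟩
      have h2 := (mem_hull_iff (v r) (hv.indep r) _).mp h1 l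
      have h3 : (bas (v r) (hv.indep r)).coord l (q τ) =
          (1 - ε) * (bas (v r) (hv.indep r)).coord l x +
            ε * (bas (v r) (hv.indep r)).coord l (p τ) :=
        coord_lin (hv.indep r) l (by ring) x (p τ)
      have h4 : (bas (v r) (hv.indep r)).coord l x = 0 := by
        rw [← hjr]
        exact (bas (v r) (hv.indep r)).coord_apply_ne hl
      rw [h3, h4, mul_zero, zero_add] at h2
      exact (mul_nonneg_iff_of_pos_left hε).mp h2
  exact disj_interior hv hrt hpr (hpint τ hτ0 hτ1)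

end Pool.Agent.Helper50.FT
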