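import Mathlib

/-!
# FT: piecewise monotone continuous functions on a segment
-/

namespace Pool.Agent.Helper50.FT

open Set

/-- A finite closed cover of `[a, b]` by intervals with nondecreasing affine functions which agree
on the intersections and fix the two end points. -/
structure Pieces {ι : Type*} (a b : ℝ) (I : ι → Set ℝ) (g : ι → ℝ → ℝ) : Prop where
  closed : ∀ s, IsClosed (I s)
  conv : ∀ s, Convex ℝ (I s)
  cover : ⋃ s, I s = Icc a b
  cont : ∀ s, Continuous (g s)
  mono : ∀ s, Monotone (g s)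
  glue : ∀ s t, ∀ r ∈ I s, r ∈ I t → g s r = g t r
  left : ∀ s, a ∈ I s → g s a = a
  right : ∀ s, b ∈ I s → g s b = b

namespace Pieces

variable {ι : Type*} [Finite ι] {a b : ℝ} {I : ι → Set ℝ} {g : ι → ℝ → ℝ}

theorem exists_glued (h : Pieces a b I g) :
    ∃ f : ℝ → ℝ, ContinuousOn f (Icc a b) ∧ ∀ s, ∀ r ∈ I s, f r = g s r := by
  classical
  refine ⟨fun r => if hr : ∃ s, r ∈ I s then g hr.choose r else 0, ?_, ?_⟩
  swap
  · intro s r hr
    have hex : ∃ s, r ∈ I s := ⟨s, hr⟩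
    simp only [dif_pos hex]
    exact h.glue _ _ r hex.choose_spec hr
  · rw [← h.cover]
    refine (locallyFinite_of_finite I).continuousOn_iUnion h.closed fun s => ?_
    refine (h.cont s).continuousOn.congr fun r hr => ?_
    have hex : ∃ s, r ∈ I s := ⟨s, hr⟩
    simp only [dif_pos hex]
    exact h.glue _ _ r hex.choose_spec hr

/-- To the right of every point `z < b` there is a piece which contains `z` and a point as close to
`z` as we like. -/
theorem exists_right (h : Pieces a b I g) {z y : ℝ} (hz : z ∈ Icc a b) (hzb : z < b)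
    (hzy : z < y) : ∃ s, z ∈ I s ∧ ∃ w ∈ I s, z < w ∧ w ≤ y := by
  by_contra hcon
  push Not at hcon
  -- the pieces which contain `z` do not contain points of `(z, y]`
  have h1 : ∀ s, ∃ ε > 0, ∀ w ∈ I s, z < w → z + ε ≤ w := by
    intro s
    by_cases hs : z ∈ I s
    · refine ⟨y - z, by linarith, fun w hw hzw => ?_⟩
      have := hcon s hs w hw hzw
      linarith
    · have h2 : (I s)ᶜ ∈ nhds z := (h.closed s).isOpen_compl.mem_nhds hs
      obtain ⟨ε, hε, h3⟩ := Metric.mem_nhds_iff.mp h2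
      refine ⟨ε, hε, fun w hw hzw => ?_⟩
      by_contra h4
      push Not at h4
      refine h3 (?_ : w ∈ Metric.ball z ε) hw
      rw [Metric.mem_ball, Real.dist_eq, abs_of_pos (by linarith)]
      linarith
  choose ε hε h2 using h1
  obtain ⟨δ, hδ, h3⟩ : ∃ δ > 0, ∀ s, δ ≤ ε s := by
    by_cases hne : Nonempty ι
    · obtain ⟨s0, hs0⟩ := Finite.exists_min ε
      exact ⟨ε s0, hε s0, hs0⟩
    · exact ⟨1, one_pos, fun s => absurd ⟨s⟩ hne⟩
  have h4 : z + min (δ / 2) (b - z) ∈ Icc a b := by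
    have h5 : 0 < min (δ / 2) (b - z) := lt_min (by linarith) (by linarith)
    have h6 := min_le_right (δ / 2) (b - z)
    exact ⟨by linarith [hz.1], by linarith⟩
  rw [← h.cover] at h4
  obtain ⟨s, hs⟩ := mem_iUnion.mp h4
  have h5 : 0 < min (δ / 2) (b - z) := lt_min (by linarith) (by linarith)
  have h6 := h2 s _ hs (by linarith)
  have h7 := min_le_left (δ / 2) (b - z)
  have h8 := h3 s
  linarith

theorem monotoneOn (h : Pieces a b I g) {f : ℝ → ℝ} (hf : ContinuousOn f (Icc a b))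
    (hfg : ∀ s, ∀ r ∈ I s, f r = g s r) : MonotoneOn f (Icc a b) := by
  intro x hx y hy hxy
  have hsub : Icc x y ⊆ Icc a b := Icc_subset_Icc hx.1 hy.2
  have h1 : IsClosed ({z | f x ≤ f z} ∩ Icc x y) := by
    have h2 := (hf.mono hsub).preimage_isClosed_of_isClosed isClosed_Icc
      (isClosed_Ici (a := f x))
    rw [inter_comm]
    exact h2
  have h2 := h1.Icc_subset_of_forall_exists_gt (a := x) (b := y) (le_refl (f x)) ?_
  · exact h2 (right_mem_Icc.mpr hxy)
  · rintro z ⟨hz1, hz2⟩ y' hy'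
    obtain ⟨s, hs, w, hw, hzw, hwy⟩ := h.exists_right (hsub ⟨hz2.1, hz2.2.le⟩)
      (hz2.2.trans_le hy.2) hy'
    refine ⟨w, ?_, hzw, hwy⟩
    show f x ≤ f w
    rw [hfg s w hw]
    refine le_trans hz1 ?_
    rw [hfg s z hs]
    exact h.mono s hzw.le

theorem mem_Icc (h : Pieces a b I g) {s : ι} {r : ℝ} (hr : r ∈ I s) : g s r ∈ Icc a b := by
  obtain ⟨f, hf, hfg⟩ := h.exists_glued
  have hm := h.monotoneOn hf hfg
  have hr' : r ∈ Icc a b := by
    rw [← h.cover]
    exact mem_iUnion.mpr ⟨s, hr⟩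
  have hab : a ≤ b := hr'.1.trans hr'.2
  have ha : f a = a := by
    have : a ∈ Icc a b := left_mem_Icc.mpr hab
    rw [← h.cover] at this
    obtain ⟨t, ht⟩ := mem_iUnion.mp this
    rw [hfg t a ht, h.left t ht]
  have hb : f b = b := by
    have : b ∈ Icc a b := right_mem_Icc.mpr hab
    rw [← h.cover] at this
    obtain ⟨t, ht⟩ := mem_iUnion.mp this
    rw [hfg t b ht, h.right t ht]
  rw [← hfg s r hr]
  constructor
  · rw [← ha]
    exact hm (left_mem_Icc.mpr hab) hr' hr'.1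
  · rw [← hb]
    exact hm hr' (right_mem_Icc.mpr hab) hr'.2

theorem exists_eq (h : Pieces a b I g) {z : ℝ} (hz : z ∈ Icc a b) :
    ∃ s, ∃ r ∈ I s, g s r = z := by
  obtain ⟨f, hf, hfg⟩ := h.exists_glued
  have hab : a ≤ b := hz.1.trans hz.2
  have ha : f a = a := by
    have : a ∈ Icc a b := left_mem_Icc.mpr hab
    rw [← h.cover] at this
    obtain ⟨t, ht⟩ := mem_iUnion.mp this
    rw [hfg t a ht, h.left t ht]
  have hb : f b = b := by
    have : b ∈ Icc a b := right_mem_Icc.mpr hab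
    rw [← h.cover] at this
    obtain ⟨t, ht⟩ := mem_iUnion.mp this
    rw [hfg t b ht, h.right t ht]
  have h1 := intermediate_value_Icc hab hf
  rw [ha, hb] at h1
  obtain ⟨r, hr, hrz⟩ := h1 hz
  rw [← h.cover] at hr
  obtain ⟨s, hs⟩ := mem_iUnion.mp hr
  exact ⟨s, r, hs, by rw [← hfg s r hs, hrz]⟩

theorem le_of_lt (h : Pieces a b I g) {s t : ι} {r r' : ℝ} (hr : r ∈ I s) (hr' : r' ∈ I t)
    (hlt : r < r') : g s r ≤ g t r' := by
  obtain ⟨f, hf, hfg⟩ := h.exists_glued
  have hm := h.monotoneOn hf hfg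
  rw [← hfg s r hr, ← hfg t r' hr']
  refine hm ?_ ?_ hlt.le
  · rw [← h.cover]
    exact mem_iUnion.mpr ⟨s, hr⟩
  · rw [← h.cover]
    exact mem_iUnion.mpr ⟨t, hr'⟩

end Pieces

end Pool.Agent.Helper50.FT
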