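import Pool.Agent.Helper50.FT.Defs

/-!
# FT: one motion of a decomposition in the direction `e`
-/

namespace Pool.Agent.Helper50.FT

open Set

variable {n : ℕ} {ι κ : Type*}

/-- The gluing conditions for a family `h` of affine functions on the simplices of `v`, in the
direction `e`; `F k` are the parts of the boundary which are not parallel to `e`. -/
structure Glued (e : Fin n → ℝ) (v : ι → Fin (n + 1) → Fin n → ℝ) (F : κ → Set (Fin n → ℝ))
    (h : ι → (Fin n → ℝ) →ᵃ[ℝ] ℝ) : Prop where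
  glue : ∀ s t, Par e (hull (v s) ∩ hull (v t)) ∨ ∀ x ∈ hull (v s) ∩ hull (v t), h s x = h t x
  bd : ∀ s k, Par e (hull (v s) ∩ F k) ∨ ∀ x ∈ hull (v s) ∩ F k, h s x = 0

/-- The end points of `P` in the direction `e` lie in the sets `F k`. -/
def Ends (P : Set (Fin n → ℝ)) (e : Fin n → ℝ) (F : κ → Set (Fin n → ℝ)) : Prop :=
  ∀ x ∈ P, ((∀ τ > (0 : ℝ), x + τ • e ∉ P) ∨ (∀ τ > (0 : ℝ), x - τ • e ∉ P)) → ∃ k, x ∈ F k

theorem par_or {e : Fin n → ℝ} {A : Set (Fin n → ℝ)} {p : (Fin n → ℝ) → Prop}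
    (h : Par e A ∨ ∀ x ∈ A, p x) : ∃ (ℓ : (Fin n → ℝ) →ₗ[ℝ] ℝ) (c : ℝ), (ℓ ≠ 0 ∨ c ≠ 0) ∧
      ℓ e = 0 ∧ ∀ x ∈ A, ℓ x ≠ c → p x := by
  rcases h with ⟨ℓ, c, h1, h2, h3⟩ | h
  · exact ⟨ℓ, c, Or.inl h1, h2, fun x hx hc => absurd (h3 x hx) hc⟩
  · exact ⟨0, 1, Or.inr one_ne_zero, rfl, fun x hx _ => h x hx⟩

/-- Generic points: hyperplanes parallel to `e` outside of which the functions glue. -/
theorem Glued.exists_bad {e : Fin n → ℝ} {v : ι → Fin (n + 1) → Fin n → ℝ}
    {F : κ → Set (Fin n → ℝ)} {h : ι → (Fin n → ℝ) →ᵃ[ℝ] ℝ} (hg : Glued e v F h) :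
    ∃ (ℓ : (ι × ι) ⊕ (ι × κ) → (Fin n → ℝ) →ₗ[ℝ] ℝ) (c : (ι × ι) ⊕ (ι × κ) → ℝ),
      (∀ k, ℓ k ≠ 0 ∨ c k ≠ 0) ∧ (∀ k, ℓ k e = 0) ∧
      (∀ x, (∀ k, ℓ k x ≠ c k) → (∀ s t, x ∈ hull (v s) → x ∈ hull (v t) → h s x = h t x) ∧
        ∀ s k, x ∈ hull (v s) → x ∈ F k → h s x = 0) := by
  choose ℓ1 c1 h1 h2 h3 using fun s t => par_or (hg.glue s t)
  choose ℓ2 c2 h4 h5 h6 using fun s k => par_or (hg.bd s k)
  refine ⟨Sum.elim (fun p => ℓ1 p.1 p.2) (fun p => ℓ2 p.1 p.2),
    Sum.elim (fun p => c1 p.1 p.2) (fun p => c2 p.1 p.2), ?_, ?_, fun x hx => ⟨?_, ?_⟩⟩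
  · rintro (⟨s, t⟩ | ⟨s, k⟩)
    · exact h1 s t
    · exact h4 s k
  · rintro (⟨s, t⟩ | ⟨s, k⟩)
    · exact h2 s t
    · exact h5 s k
  · intro s t hs ht
    exact h3 s t x ⟨hs, ht⟩ (hx (Sum.inl (s, t)))
  · intro s k hs hk
    exact h6 s k x ⟨hs, hk⟩ (hx (Sum.inr (s, k)))

section Line

variable {P : Set (Fin n → ℝ)} {v : ι → Fin (n + 1) → Fin n → ℝ} {e : Fin n → ℝ}
  {F : κ → Set (Fin n → ℝ)} {h : ι → (Fin n → ℝ) →ᵃ[ℝ] ℝ}

/-- The pieces on a line through `x`. -/
theorem exists_pieces (hP : Convex ℝ P) (hPc : IsCompact P) (hv : IsDecomp P v) (he : e ≠ 0)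
    (hF : Ends P e F) (hpos : ∀ s, 0 ≤ 1 + (h s).linear e) {x : Fin n → ℝ}
    (hne : ∃ r : ℝ, x + r • e ∈ P)
    (hx1 : ∀ (r : ℝ) s t, x + r • e ∈ hull (v s) → x + r • e ∈ hull (v t) →
      h s (x + r • e) = h t (x + r • e))
    (hx2 : ∀ (r : ℝ) s k, x + r • e ∈ hull (v s) → x + r • e ∈ F k → h s (x + r • e) = 0) :
    ∃ a b : ℝ, (∀ r : ℝ, x + r • e ∈ P ↔ r ∈ Icc a b) ∧
      Pieces a b (fun s => {r : ℝ | x + r • e ∈ hull (v s)})
        (fun s r => r + h s (x + r • e)) := by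
  have hemb : Topology.IsClosedEmbedding (fun r : ℝ => x + r • e) := by
    have h1 : Topology.IsClosedEmbedding (fun r : ℝ => r • e) := isClosedEmbedding_smul_left he
    exact (Homeomorph.addLeft x).isClosedEmbedding.comp h1
  have hcont : Continuous (fun r : ℝ => x + r • e) := hemb.continuous
  set I := {r : ℝ | x + r • e ∈ P} with hI
  have hIc : IsCompact I := hemb.isCompact_preimage hPc
  have hline : ∀ (r r' α β : ℝ), α + β = 1 → x + (α * r + β * r') • e =
      α • (x + r • e) + β • (x + r' • e) := by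
    intro r r' α β hαβ
    have h1 : x = (α + β) • x := by rw [hαβ, one_smul]
    nth_rewrite 1 [h1]
    module
  have hconvI : ∀ Q : Set (Fin n → ℝ), Convex ℝ Q → Convex ℝ {r : ℝ | x + r • e ∈ Q} := by
    intro Q hQ r hr r' hr' α β hα hβ hαβ
    show x + (α • r + β • r') • e ∈ Q
    rw [smul_eq_mul, smul_eq_mul, hline r r' α β hαβ]
    exact hQ hr hr' hα hβ hαβ
  have hIne : I.Nonempty := hne
  have hIcon : IsConnected I := ⟨hIne, (hconvI P hP).isPreconnected⟩
  have hIeq := eq_Icc_of_connected_compact hIcon hIc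
  refine ⟨sInf I, sSup I, fun r => ?_, ?_⟩
  · rw [← hIeq]
    exact Iff.rfl
  set a := sInf I
  set b := sSup I
  have hmem : ∀ r : ℝ, x + r • e ∈ P ↔ r ∈ Icc a b := fun r => by
    rw [← hIeq]
    exact Iff.rfl
  have hab : a ≤ b := by
    rw [← nonempty_Icc, ← hIeq]
    exact hIne
  refine ⟨fun s => ?_, fun s => hconvI _ (convex_hull _), ?_, fun s => ?_, fun s => ?_, ?_, ?_, ?_⟩
  · exact (isCompact_hull (v s)).isClosed.preimage hcont
  · rw [← hIeq]
    ext r
    simp only [mem_iUnion, mem_setOf_eq, hI]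
    rw [← hv.cover, mem_iUnion]
  · have := AffineMap.continuous_of_finiteDimensional (h s)
    fun_prop
  · intro r r' hrr
    simp only [aff_add]
    nlinarith [hpos s]
  · intro s t r hs ht
    show r + h s (x + r • e) = r + h t (x + r • e)
    rw [hx1 r s t hs ht]
  · intro s hs
    show a + h s (x + a • e) = a
    have h1 : x + a • e ∈ P := (hmem a).mpr (left_mem_Icc.mpr hab)
    obtain ⟨k, hk⟩ := hF _ h1 (Or.inr fun τ hτ hcon => by
      have h2 : x + a • e - τ • e = x + (a - τ) • e := by module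
      rw [h2, hmem] at hcon
      linarith [hcon.1])
    rw [hx2 a s k hs hk, add_zero]
  · intro s hs
    show b + h s (x + b • e) = b
    have h1 : x + b • e ∈ P := (hmem b).mpr (right_mem_Icc.mpr hab)
    obtain ⟨k, hk⟩ := hF _ h1 (Or.inl fun τ hτ hcon => by
      have h2 : x + b • e + τ • e = x + (b + τ) • e := by module
      rw [h2, hmem] at hcon
      linarith [hcon.2])
    rw [hx2 b s k hs hk, add_zero]

end Line

section Step

variable [Finite ι] [Finite κ] {P : Set (Fin n → ℝ)} {v : ι → Fin (n + 1) → Fin n → ℝ}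
  {e : Fin n → ℝ} {F : κ → Set (Fin n → ℝ)} {h : ι → (Fin n → ℝ) →ᵃ[ℝ] ℝ}

/-- Generic points of an open set: lines through them are good, and they avoid the flat images. -/
theorem exists_good (hg : Glued e v F h) {O : Set (Fin n → ℝ)} (hO : IsOpen O)
    (hne : O.Nonempty) : ∃ x ∈ O,
      (∀ (r : ℝ) s t, x + r • e ∈ hull (v s) → x + r • e ∈ hull (v t) →
        h s (x + r • e) = h t (x + r • e)) ∧
      (∀ (r : ℝ) s k, x + r • e ∈ hull (v s) → x + r • e ∈ F k → h s (x + r • e) = 0) ∧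
      ∀ s, 1 + (h s).linear e = 0 → ∀ y, phi (h s) e y ≠ x := by
  classical
  obtain ⟨ℓ, c, h1, h2, h3⟩ := hg.exists_bad
  let ℓ' : ((ι × ι) ⊕ (ι × κ)) ⊕ ι → (Fin n → ℝ) →ₗ[ℝ] ℝ :=
    Sum.elim ℓ (fun s => if 1 + (h s).linear e = 0 then (h s).linear else 0)
  let c' : ((ι × ι) ⊕ (ι × κ)) ⊕ ι → ℝ :=
    Sum.elim c (fun s => if 1 + (h s).linear e = 0 then - h s 0 else 1)
  obtain ⟨x, hxO, hx⟩ := exists_generic ℓ' c' (by
    rintro (k | s)
    · exact h1 k
    · by_cases hs : 1 + (h s).linear e = 0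
      · left
        show (if 1 + (h s).linear e = 0 then (h s).linear else 0) ≠ 0
        rw [if_pos hs]
        intro h0
        rw [h0] at hs
        simp at hs
      · right
        show (if 1 + (h s).linear e = 0 then - h s 0 else 1) ≠ 0
        rw [if_neg hs]
        exact one_ne_zero) hO hne
  have hgen : ∀ (r : ℝ) k, ℓ k (x + r • e) ≠ c k := by
    intro r k
    rw [map_add, map_smul, h2 k, smul_zero, add_zero]
    exact hx (Sum.inl k)
  refine ⟨x, hxO, fun r s t hs ht => (h3 _ (hgen r)).1 s t hs ht,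
    fun r s k hs hk => (h3 _ (hgen r)).2 s k hs hk, fun s hs y hy => ?_⟩
  have h4 := hx (Sum.inr s)
  simp only [ℓ', c', Sum.elim_inr, if_pos hs] at h4
  apply h4
  have h5 := aff_phi (h s) e y
  rw [hs, mul_zero, hy] at h5
  have h6 := (h s).map_vadd 0 x
  simp only [vadd_eq_add, add_zero] at h6
  rw [h6] at h5
  linarith

theorem phi_mem (hP : Convex ℝ P) (hPc : IsCompact P) (hv : IsDecomp P v) (he : e ≠ 0)
    (hF : Ends P e F) (hg : Glued e v F h) (hpos : ∀ s, 0 ≤ 1 + (h s).linear e) (s : ι)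
    {y : Fin n → ℝ} (hy : y ∈ hull (v s)) : phi (h s) e y ∈ P := by
  have hcont : Continuous (phi (h s) e) := AffineMap.continuous_of_finiteDimensional _
  have hcl : IsClosed (phi (h s) e ⁻¹' P) := hPc.isClosed.preimage hcont
  have hsub : interior (hull (v s)) ⊆ phi (h s) e ⁻¹' P := by
    intro y hy
    by_contra hcon
    obtain ⟨x, ⟨hx1, hx2⟩, hx3, hx4, -⟩ := exists_good hg
      (isOpen_interior.inter hcl.isOpen_compl) ⟨y, hy, hcon⟩
    apply hx2
    have hxs : x ∈ hull (v s) := interior_subset hx1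
    have hxP : x ∈ P := by
      rw [← hv.cover]
      exact mem_iUnion.mpr ⟨s, hxs⟩
    have h0 : x + (0 : ℝ) • e = x := by rw [zero_smul, add_zero]
    obtain ⟨a, b, hab, hp⟩ := exists_pieces hP hPc hv he hF hpos ⟨0, by rw [h0]; exact hxP⟩
      hx3 hx4
    have h1 := hp.mem_Icc (s := s) (r := 0) (by
      show x + (0 : ℝ) • e ∈ hull (v s)
      rw [h0]
      exact hxs)
    simp only [h0, zero_add] at h1
    rw [← hab] at h1
    show phi (h s) e x ∈ P
    rw [phi_apply]
    exact h1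
  have h1 := hcl.closure_subset_iff.mpr hsub
  rw [closure_interior_hull (hv.indep s)] at h1
  exact h1 hy

theorem exists_preimage (hP : Convex ℝ P) (hPc : IsCompact P) (hv : IsDecomp P v) (he : e ≠ 0)
    (hF : Ends P e F) (hpos : ∀ s, 0 ≤ 1 + (h s).linear e)
    {x : Fin n → ℝ} (hxP : x ∈ P)
    (hx3 : ∀ (r : ℝ) s t, x + r • e ∈ hull (v s) → x + r • e ∈ hull (v t) →
      h s (x + r • e) = h t (x + r • e))
    (hx4 : ∀ (r : ℝ) s k, x + r • e ∈ hull (v s) → x + r • e ∈ F k → h s (x + r • e) = 0) :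
    ∃ s, ∃ y ∈ hull (v s), phi (h s) e y = x := by
  have h0 : x + (0 : ℝ) • e = x := by rw [zero_smul, add_zero]
  obtain ⟨a, b, hab, hp⟩ := exists_pieces hP hPc hv he hF hpos ⟨0, by rw [h0]; exact hxP⟩
    hx3 hx4
  have h1 : (0 : ℝ) ∈ Icc a b := by
    rw [← hab, h0]
    exact hxP
  obtain ⟨s, r, hr, hsr⟩ := hp.exists_eq h1
  refine ⟨s, x + r • e, hr, ?_⟩
  rw [phi_apply]
  have h2 : x + r • e + h s (x + r • e) • e = x + (r + h s (x + r • e)) • e := by module
  rw [h2]
  have h3 : r + h s (x + r • e) = 0 := hsr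
  rw [h3, zero_smul, add_zero]

theorem disj_aux (hP : Convex ℝ P) (hPc : IsCompact P) (hv : IsDecomp P v) (he : e ≠ 0)
    (hF : Ends P e F) (hpos : ∀ s, 0 ≤ 1 + (h s).linear e)
    {x : Fin n → ℝ}
    (hx3 : ∀ (r : ℝ) s t, x + r • e ∈ hull (v s) → x + r • e ∈ hull (v t) →
      h s (x + r • e) = h t (x + r • e))
    (hx4 : ∀ (r : ℝ) s k, x + r • e ∈ hull (v s) → x + r • e ∈ F k → h s (x + r • e) = 0)
    {s t : ι} (hs : 1 + (h s).linear e ≠ 0) {r r' : ℝ}
    (hr : x + r • e ∈ interior (hull (v s))) (hr' : x + r' • e ∈ hull (v t))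
    (h1 : r + h s (x + r • e) = 0) (h2 : r' + h t (x + r' • e) = 0) (hlt : r < r') : False := by
  have hxP : x + r • e ∈ P := by
    rw [← hv.cover]
    exact mem_iUnion.mpr ⟨s, interior_subset hr⟩
  obtain ⟨a, b, hab, hp⟩ := exists_pieces hP hPc hv he hF hpos ⟨r, hxP⟩ hx3 hx4
  have hcont : Continuous (fun r : ℝ => x + r • e) := by fun_prop
  have hopen : IsOpen {r : ℝ | x + r • e ∈ interior (hull (v s))} :=
    isOpen_interior.preimage hcont
  obtain ⟨ε, hε, hball⟩ := Metric.isOpen_iff.mp hopen r hr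
  set w := r + min (ε / 2) ((r' - r) / 2) with hw
  have hm1 : 0 < min (ε / 2) ((r' - r) / 2) := lt_min (by linarith) (by linarith)
  have hm2 := min_le_left (ε / 2) ((r' - r) / 2)
  have hm3 := min_le_right (ε / 2) ((r' - r) / 2)
  have hwin : x + w • e ∈ hull (v s) := by
    refine interior_subset (hball ?_)
    rw [Metric.mem_ball, Real.dist_eq, hw, add_sub_cancel_left, abs_of_pos hm1]
    linarith
  have h3 := hp.le_of_lt (s := s) (t := t) (r := w) (r' := r') hwin hr' (by linarith)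
  rw [h2] at h3
  have h4 : x + w • e = x + r • e + (w - r) • e := by module
  rw [h4, aff_add] at h3
  have h5 : 0 < 1 + (h s).linear e := lt_of_le_of_ne (hpos s) (Ne.symm hs)
  have h6 : 0 < w - r := by linarith
  nlinarith [mul_pos h6 h5]

/-- The motion `phi` in the direction `e` of a decomposition: the simplices which do not become
flat form a decomposition. -/
theorem step (hP : Convex ℝ P) (hPc : IsCompact P) (hv : IsDecomp P v) (he : e ≠ 0)
    (hF : Ends P e F) (hg : Glued e v F h) (hpos : ∀ s, 0 ≤ 1 + (h s).linear e) :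
    IsDecomp P (fun (s : {s // 1 + (h s).linear e ≠ 0}) i => phi (h s) e (v s i)) := by
  have himg : ∀ s : ι, hull (fun i => phi (h s) e (v s i)) = phi (h s) e '' hull (v s) :=
    fun s => (image_hull _ _).symm
  refine ⟨fun s => ?_, ?_, ?_⟩
  · exact (hv.indep s).map' (phi (h s) e) (phiHomeo (h s) e s.2).injective
  · apply Subset.antisymm
    · refine iUnion_subset fun s => ?_
      rw [himg]
      rintro _ ⟨y, hy, rfl⟩
      exact phi_mem hP hPc hv he hF hg hpos s hy
    · have hcl : IsClosed (⋃ s : {s // 1 + (h s).linear e ≠ 0},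
          hull (fun i => phi (h s) e (v s i))) :=
        isClosed_iUnion_of_finite fun s => (isCompact_hull _).isClosed
      have hsub : interior P ⊆ ⋃ s : {s // 1 + (h s).linear e ≠ 0},
          hull (fun i => phi (h s) e (v s i)) := by
        intro y hy
        by_contra hcon
        obtain ⟨x, ⟨hx1, hx2⟩, hx3, hx4, hx5⟩ := exists_good hg
          (isOpen_interior.inter hcl.isOpen_compl) ⟨y, hy, hcon⟩
        apply hx2
        obtain ⟨s, z, hz, hzx⟩ := exists_preimage hP hPc hv he hF hpos (interior_subset hx1)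
          hx3 hx4
        have hs : 1 + (h s).linear e ≠ 0 := fun h0 => hx5 s h0 z hzx
        refine mem_iUnion.mpr ⟨⟨s, hs⟩, ?_⟩
        rw [himg]
        exact ⟨z, hz, hzx⟩
      rcases isEmpty_or_nonempty ι with hemp | ⟨⟨s0⟩⟩
      · have hPe : P = ∅ := by
          rw [← hv.cover]
          simp
        rw [hPe]
        exact empty_subset _
      · have hint : (interior P).Nonempty := by
          refine (nonempty_interior_hull (hv.indep s0)).mono (interior_mono ?_)
          rw [← hv.cover]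
          exact subset_iUnion (fun s => hull (v s)) s0
        have h1 := hP.closure_interior_eq_closure_of_nonempty_interior hint
        rw [hPc.isClosed.closure_eq] at h1
        rw [← h1]
        exact hcl.closure_subset_iff.mpr hsub
  · rintro ⟨s, hs⟩ ⟨t, ht⟩ hst
    have hst' : s ≠ t := fun h0 => hst (Subtype.ext h0)
    rw [himg, himg, Set.disjoint_iff]
    rintro y ⟨hy1, hy2⟩
    obtain ⟨x, ⟨hx1, hx2⟩, hx3, hx4, -⟩ := exists_good hg
      (isOpen_interior.inter isOpen_interior) ⟨y, hy1, hy2⟩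
    have e1 : phi (h s) e '' hull (v s) = phiHomeo (h s) e hs '' hull (v s) := rfl
    have e2 : phi (h t) e '' hull (v t) = phiHomeo (h t) e ht '' hull (v t) := rfl
    rw [e1, ← Homeomorph.image_interior] at hx1
    rw [e2, ← Homeomorph.image_interior] at hx2
    obtain ⟨z, hz, hzx⟩ := hx1
    obtain ⟨z', hz', hzx'⟩ := hx2
    have hzx1 : phi (h s) e z = x := hzx
    have hzx1' : phi (h t) e z' = x := hzx'
    rw [phi_apply] at hzx1 hzx1'
    have hz1 : z = x + (-(h s z)) • e := by rw [← hzx1]; module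
    have hz1' : z' = x + (-(h t z')) • e := by rw [← hzx1']; module
    have g1 : -(h s z) + h s (x + (-(h s z)) • e) = 0 := by rw [← hz1]; ring
    have g2 : -(h t z') + h t (x + (-(h t z')) • e) = 0 := by rw [← hz1']; ring
    rcases lt_trichotomy (-(h s z)) (-(h t z')) with hlt | heq | hgt
    · exact disj_aux hP hPc hv he hF hpos hx3 hx4 hs (hz1 ▸ hz)
        (hz1' ▸ interior_subset hz') g1 g2 hlt
    · have hzz : z = z' := by rw [hz1, hz1', heq]
      have hz2 : z ∈ interior (hull (v t)) := by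
        rw [hzz]
        exact hz'
      exact Set.disjoint_left.mp (hv.disj s t hst') hz hz2
    · exact disj_aux hP hPc hv he hF hpos hx3 hx4 ht (hz1' ▸ hz')
        (hz1 ▸ interior_subset hz) g2 g1 hgt

end Step

end Pool.Agent.Helper50.FT
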