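import Pool.Agent.Helper50.FT.Cube

/-!
# FT: moving one vertex
-/

namespace Pool.Agent.Helper50.FT

open Set Module

variable {n : ℕ}

/-- The end points of the cube in the direction `e`. -/
theorem ends_cube_dir (e : Fin n → ℝ) : Ends (Icc (0 : Fin n → ℝ) 1) e
    (fun k : {i : Fin n // e i ≠ 0} × Bool => {x : Fin n → ℝ | x k.1.1 = if k.2 then 1 else 0}) := by
  -- it suffices to find a small `τ` when `x` is on no such facet
  have key : ∀ x ∈ Icc (0 : Fin n → ℝ) 1,
      (∀ k : {i : Fin n // e i ≠ 0} × Bool, x k.1.1 ≠ if k.2 then 1 else 0) →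
      ∃ δ > (0 : ℝ), ∀ τ : ℝ, |τ| ≤ δ → x + τ • e ∈ Icc (0 : Fin n → ℝ) 1 := by
    intro x hx hk
    have h1 : ∀ i : Fin n, ∃ δ > (0 : ℝ), ∀ τ : ℝ, |τ| ≤ δ → 0 ≤ x i + τ * e i ∧
        x i + τ * e i ≤ 1 := by
      intro i
      by_cases hi : e i = 0
      · refine ⟨1, one_pos, fun τ _ => ?_⟩
        rw [hi, mul_zero, add_zero]
        exact ⟨hx.1 i, hx.2 i⟩
      · have h0 : x i ≠ 0 := by simpa using hk (⟨i, hi⟩, false)
        have h1 : x i ≠ 1 := by simpa using hk (⟨i, hi⟩, true)
        have h2 : 0 < x i := lt_of_le_of_ne (hx.1 i) (Ne.symm h0)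
        have h3 : x i < 1 := lt_of_le_of_ne (hx.2 i) h1
        have h4 : 0 < |e i| := abs_pos.mpr hi
        refine ⟨min (x i) (1 - x i) / |e i|, div_pos (lt_min h2 (by linarith)) h4,
          fun τ hτ => ?_⟩
        rw [le_div_iff₀ h4, ← abs_mul] at hτ
        have h5 := abs_le.mp hτ
        have h6 := min_le_left (x i) (1 - x i)
        have h7 := min_le_right (x i) (1 - x i)
        exact ⟨by linarith [h5.1], by linarith [h5.2]⟩
    choose δ hδ h2 using h1
    obtain ⟨d, hd, h3⟩ : ∃ d > 0, ∀ i, d ≤ δ i := by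
      by_cases hne : Nonempty (Fin n)
      · obtain ⟨i0, hi0⟩ := Finite.exists_min δ
        exact ⟨δ i0, hδ i0, hi0⟩
      · exact ⟨1, one_pos, fun s => absurd ⟨s⟩ hne⟩
    exact ⟨d, hd, fun τ hτ => ⟨fun i => (h2 i τ (hτ.trans (h3 i))).1,
      fun i => (h2 i τ (hτ.trans (h3 i))).2⟩⟩
  intro x hx hor
  by_contra hcon
  push Not at hcon
  obtain ⟨δ, hδ, h1⟩ := key x hx hcon
  rcases hor with h | h
  · exact h δ hδ (h1 δ (abs_of_pos hδ).le)
  · have h2 := h1 (-δ) (by rw [abs_neg]; exact (abs_of_pos hδ).le)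
    rw [neg_smul, ← sub_eq_add_neg] at h2
    exact h δ hδ h2

/-- The family of hat functions of the point `x`. -/
noncomputable def hatAt {ι : Type*} {P : Set (Fin n → ℝ)} {v : ι → Fin (n + 1) → Fin n → ℝ}
    (hv : IsDecomp P v) (x : Fin n → ℝ) : ι → (Fin n → ℝ) →ᵃ[ℝ] ℝ := by
  classical
  exact fun s => hat (v s) (hv.indep s) (fun u => if u = x then 1 else 0)

theorem glued_hatAt {ι : Type*} [Finite ι] {v : ι → Fin (n + 1) → Fin n → ℝ}
    (hv : IsDecomp (Icc 0 1) v) {x : Fin n → ℝ} (hx : LocalFF v x) (hex : ∃ s j, v s j = x)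
    {e : Fin n → ℝ} (he : ∀ i, e i ≠ 0 → x i ≠ 0 ∧ x i ≠ 1) :
    Glued e v (fun k : {i : Fin n // e i ≠ 0} × Bool =>
      {x : Fin n → ℝ | x k.1.1 = if k.2 then 1 else 0}) (hatAt hv x) := by
  classical
  refine ⟨fun s t => Or.inr fun y hy => ?_, fun s k => Or.inr fun y hy => ?_⟩
  · have h := hat_glue (convex_Icc (0 : Fin n → ℝ) 1) isCompact_Icc hv hx hex s t hy.1 hy.2
    unfold hatAt
    convert h
  · unfold hatAt
    obtain ⟨⟨i, hi⟩, b⟩ := k
    refine hat_facet hv s (ε := if b then 1 else 0) ?_ ?_ hy.1 hy.2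
    · cases b
      · left
        simp
      · right
        simp
    · intro z hz
      have hzx : z ≠ x := by
        rintro rfl
        cases b
        · exact (he i hi).1 (by simpa using hz)
        · exact (he i hi).2 (by simpa using hz)
      rw [if_neg hzx]

/-- There is a decomposition with at least `g` simplices less, `g` the dimension of the face of
the cube which contains the vertex `x` in its relative interior, if the decomposition is face to
face near `x`. -/
theorem vertex_smaller {ι : Type*} [Finite ι] {v : ι → Fin (n + 1) → Fin n → ℝ}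
    (hv : IsDecomp (Icc 0 1) v) {x : Fin n → ℝ} (hx : LocalFF v x) (hex : ∃ s j, v s j = x) :
    ∃ (N : ℕ) (w : Fin N → Fin (n + 1) → Fin n → ℝ), IsDecomp (Icc 0 1) w ∧
      N + {i : Fin n | x i ≠ 0 ∧ x i ≠ 1}.ncard ≤ Nat.card ι := by
  classical
  haveI : Fintype ι := Fintype.ofFinite ι
  set I : Set (Fin n) := {i : Fin n | x i ≠ 0 ∧ x i ≠ 1} with hI
  -- the directions of the face
  let emb : (I → ℝ) →ₗ[ℝ] (Fin n → ℝ) :=
    { toFun := fun c i => if hi : i ∈ I then c ⟨i, hi⟩ else 0
      map_add' := fun c d => by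
        funext i
        by_cases hi : i ∈ I
        · simp [hi]
        · simp [hi]
      map_smul' := fun a c => by
        funext i
        by_cases hi : i ∈ I
        · simp [hi]
        · simp [hi] }
  have hemb0 : ∀ c : I → ℝ, ∀ i, emb c i ≠ 0 → x i ≠ 0 ∧ x i ≠ 1 := by
    intro c i hi
    by_contra hcon
    have hiI : i ∉ I := hcon
    exact hi (by show (if hi : i ∈ I then c ⟨i, hi⟩ else 0) = 0; rw [dif_neg hiI])
  have hembinj : ∀ c : I → ℝ, emb c = 0 → c = 0 := by
    intro c hc
    funext ⟨i, hi⟩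
    have h1 := congrFun hc i
    have h2 : emb c i = c ⟨i, hi⟩ := by
      show (if hi : i ∈ I then c ⟨i, hi⟩ else 0) = c ⟨i, hi⟩
      rw [dif_pos hi]
    rw [h2] at h1
    exact h1
  -- the derivatives of the hat functions in a direction of the face do not all vanish
  have hder : ∀ c : I → ℝ, c ≠ 0 → ∃ s, (hatAt hv x s).linear (emb c) ≠ 0 := by
    intro c hc
    by_contra hcon
    push Not at hcon
    have h1 := eq_zero_of_flat (convex_Icc (0 : Fin n → ℝ) 1) isCompact_Icc hv
      (fun h0 => hc (hembinj c h0)) (ends_cube_dir (emb c))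
      (glued_hatAt hv hx hex (hemb0 c)) hcon
    obtain ⟨s, j, hsj⟩ := hex
    have h2 : hatAt hv x s (v s j) = 1 := by
      unfold hatAt
      rw [hat_vertex, if_pos hsj]
    rw [h1] at h2
    have h3 : (0 : ι → (Fin n → ℝ) →ᵃ[ℝ] ℝ) s (v s j) = 0 := rfl
    rw [h3] at h2
    exact zero_ne_one h2
  let feas : (I → ℝ) → Prop := fun c => ∀ s, 0 ≤ 1 + (hatAt hv x s).linear (emb c)
  let Z : (I → ℝ) → Finset ι :=
    fun c => Finset.univ.filter fun s => 1 + (hatAt hv x s).linear (emb c) = 0
  obtain ⟨c, hc, hmax⟩ : ∃ c, feas c ∧ ∀ c', feas c' → (Z c').card ≤ (Z c).card := by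
    let A : Set ℕ := {k | ∃ c, feas c ∧ (Z c).card = k}
    have hA1 : A.Nonempty := ⟨_, 0, fun s => by
      rw [map_zero, map_zero, add_zero]
      exact zero_le_one, rfl⟩
    have hA2 : BddAbove A := by
      refine ⟨Fintype.card ι, ?_⟩
      rintro k ⟨c, -, rfl⟩
      exact Finset.card_le_univ _
    obtain ⟨c, hc, hk⟩ := Nat.sSup_mem hA1 hA2
    exact ⟨c, hc, fun c' hc' => by rw [hk]; exact le_csSup hA2 ⟨c', hc', rfl⟩⟩
  have hcard : I.ncard ≤ (Z c).card := by
    by_contra hlt
    push Not at hlt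
    let L : (I → ℝ) →ₗ[ℝ] (Z c → ℝ) :=
      LinearMap.pi fun s => (hatAt hv x s).linear.comp emb
    have hker : LinearMap.ker L ≠ ⊥ := by
      refine LinearMap.ker_ne_bot_of_finrank_lt ?_
      rw [finrank_fintype_fun_eq_card, finrank_fintype_fun_eq_card, Fintype.card_coe,
        ← Nat.card_eq_fintype_card]
      exact hlt
    obtain ⟨g, hgk, hg0⟩ := (Submodule.ne_bot_iff _).mp hker
    have hgZ : ∀ s ∈ Z c, (hatAt hv x s).linear (emb g) = 0 := by
      intro s hs
      have h1 : L g = 0 := hgk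
      exact congrFun h1 ⟨s, hs⟩
    obtain ⟨g, hgZ, s1, hs1⟩ : ∃ g : I → ℝ, (∀ s ∈ Z c, (hatAt hv x s).linear (emb g) = 0) ∧
        ∃ s, (hatAt hv x s).linear (emb g) < 0 := by
      obtain ⟨s, hs⟩ := hder g hg0
      rcases lt_or_gt_of_ne hs with hs | hs
      · exact ⟨g, hgZ, s, hs⟩
      · refine ⟨-g, fun s hs => ?_, s, ?_⟩
        · rw [map_neg, map_neg, hgZ s hs, neg_zero]
        · rw [map_neg, map_neg]
          linarith
    let B : Finset ι := Finset.univ.filter fun s => (hatAt hv x s).linear (emb g) < 0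
    have hB : B.Nonempty := ⟨s1, by simp [B, hs1]⟩
    obtain ⟨s2, hs2B, hs2⟩ := B.exists_min_image
      (fun s => (1 + (hatAt hv x s).linear (emb c)) / (-((hatAt hv x s).linear (emb g)))) hB
    have hs2neg : (hatAt hv x s2).linear (emb g) < 0 := by simpa [B] using hs2B
    set τ := (1 + (hatAt hv x s2).linear (emb c)) / (-((hatAt hv x s2).linear (emb g))) with hτ
    have hτ0 : 0 ≤ τ := div_nonneg (hc s2) (by linarith)
    have hlin : ∀ s, (hatAt hv x s).linear (emb (c + τ • g)) =
        (hatAt hv x s).linear (emb c) + τ * (hatAt hv x s).linear (emb g) := fun s => by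
      rw [map_add, map_smul, map_add, map_smul, smul_eq_mul]
    have hfeas : feas (c + τ • g) := by
      intro s
      rw [hlin]
      by_cases hs : (hatAt hv x s).linear (emb g) < 0
      · have h1 := hs2 s (by simp [B, hs])
        rw [le_div_iff₀ (by linarith)] at h1
        linarith
      · push Not at hs
        have h1 := mul_nonneg hτ0 hs
        have h2 := hc s
        linarith
    have hsub : Z c ⊂ Z (c + τ • g) := by
      rw [Finset.ssubset_iff_of_subset]
      · refine ⟨s2, ?_, fun hcon => ?_⟩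
        · simp only [Z, Finset.mem_filter, Finset.mem_univ, true_and]
          rw [hlin]
          have h1 : τ * (hatAt hv x s2).linear (emb g) =
              -(1 + (hatAt hv x s2).linear (emb c)) := by
            have h2 : (hatAt hv x s2).linear (emb g) ≠ 0 := hs2neg.ne
            rw [hτ]
            field_simp
          rw [h1]
          ring
        · rw [hgZ s2 hcon] at hs2neg
          exact lt_irrefl _ hs2neg
      · intro s hs
        have h1 := hgZ s hs
        simp only [Z, Finset.mem_filter, Finset.mem_univ, true_and] at hs ⊢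
        rw [hlin, h1, mul_zero, add_zero]
        exact hs
    have h1 := hmax _ hfeas
    have h2 := Finset.card_lt_card hsub
    omega
  -- the motion
  by_cases he : emb c = 0
  · have hZ : Z c = ∅ := by
      simp only [Z, he, map_zero, add_zero, one_ne_zero, Finset.filter_false]
    rw [hZ, Finset.card_empty] at hcard
    let eq : Fin (Nat.card ι) ≃ ι := (Finite.equivFin ι).symm
    refine ⟨Nat.card ι, fun k => v (eq k), ⟨fun k => hv.indep _, ?_, fun k l hkl =>
      hv.disj _ _ fun h2 => hkl (eq.injective h2)⟩, by omega⟩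
    rw [← hv.cover]
    exact eq.surjective.iUnion_comp (fun s : ι => hull (v s))
  · have h1 := step (convex_Icc (0 : Fin n → ℝ) 1) isCompact_Icc hv he (ends_cube_dir (emb c))
      (glued_hatAt hv hx hex (hemb0 c)) hc
    let N := Fintype.card {s // 1 + (hatAt hv x s).linear (emb c) ≠ 0}
    let eq : Fin N ≃ {s // 1 + (hatAt hv x s).linear (emb c) ≠ 0} := (Fintype.equivFin _).symm
    refine ⟨N, fun k => fun i => phi (hatAt hv x (eq k)) (emb c) (v (eq k) i),
      ⟨fun k => h1.indep (eq k), ?_,
      fun k l hkl => h1.disj (eq k) (eq l) fun h2 => hkl (eq.injective h2)⟩, ?_⟩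
    · refine Eq.trans ?_ h1.cover
      exact eq.surjective.iUnion_comp
        (fun s : {s // 1 + (hatAt hv x s).linear (emb c) ≠ 0} =>
          hull fun i => phi (hatAt hv x s) (emb c) (v s i))
    · have h2 : (Z c).card + N = Nat.card ι := by
        have h4 : (Z c).card = Fintype.card {s // 1 + (hatAt hv x s).linear (emb c) = 0} := by
          rw [Fintype.card_subtype]
        rw [h4, Nat.card_eq_fintype_card]
        show Fintype.card {s // 1 + (hatAt hv x s).linear (emb c) = 0} +
          Fintype.card {s // ¬ (1 + (hatAt hv x s).linear (emb c) = 0)} = Fintype.card ι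
        rw [Fintype.card_subtype_compl]
        have h3 := Fintype.card_subtype_le
          (fun s => 1 + (hatAt hv x s).linear (emb c) = 0)
        omega
      omega

end Pool.Agent.Helper50.FT
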